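import Pool.Agent.PathMix.Defs
set_option autoImplicit false
open Matrix Finset

namespace PathMix

/-- sum of cos over full period -/
lemma sum_cos_full (N : ℕ) (hN : 0 < N) (l : ℤ) :
    ∑ r ∈ range (2 * N), Real.cos (Real.pi * l * r / N) = if (2 * N : ℤ) ∣ l then (2 * N : ℝ) else 0 := by
  have hNr : (N : ℝ) ≠ 0 := by positivity
  have hNc : (N : ℂ) ≠ 0 := by exact_mod_cast hN.ne'
  split_ifs with h
  · obtain ⟨q, rfl⟩ := h
    have : ∀ r ∈ range (2 * N), Real.cos (Real.pi * ((2 * N * q : ℤ) : ℝ) * r / N) = 1 := by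
      intro r _
      have : Real.pi * ((2 * N * q : ℤ) : ℝ) * r / N = ((q * r : ℤ) : ℝ) * (2 * Real.pi) := by
        push_cast; field_simp
      rw [this]
      exact Real.cos_int_mul_two_pi _
    rw [Finset.sum_congr rfl this]
    simp
  · -- geometric sum
    set w : ℂ := Complex.exp (2 * Real.pi * Complex.I * (l / (2 * N : ℂ))) with hw
    have hw1 : w ≠ 1 := by
      intro hc
      rw [hw, Complex.exp_eq_one_iff] at hc
      obtain ⟨q, hq⟩ := hc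
      apply h
      refine ⟨q, ?_⟩
      have hpi : (2 * Real.pi * Complex.I : ℂ) ≠ 0 := by
        simp [Real.pi_ne_zero]
      have h2 : (l / (2 * N : ℂ)) = q := by
        apply mul_left_cancel₀ hpi
        rw [hq]; ring
      have h3 : (l : ℂ) = 2 * N * q := by
        field_simp at h2
        rw [h2]
      exact_mod_cast h3
    have hwN : w ^ (2 * N) = 1 := by
      rw [hw, ← Complex.exp_nat_mul]
      rw [Complex.exp_eq_one_iff]
      refine ⟨l, ?_⟩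
      push_cast
      field_simp
    have hgeom : ∑ r ∈ range (2 * N), w ^ r = 0 := by
      have := geom_sum_mul w (2 * N)
      rw [hwN, sub_self] at this
      rcases mul_eq_zero.mp this with h | h
      · exact h
      · exact absurd (sub_eq_zero.mp h) hw1
    have hre : ∀ r : ℕ, Real.cos (Real.pi * l * r / N) = (w ^ r).re := by
      intro r
      rw [hw, ← Complex.exp_nat_mul]
      have : (r : ℂ) * (2 * Real.pi * Complex.I * (l / (2 * N : ℂ))) =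
          ((Real.pi * l * r / N : ℝ) : ℂ) * Complex.I := by
        push_cast; field_simp
      rw [this, Complex.exp_ofReal_mul_I_re]
    rw [Finset.sum_congr rfl (fun r _ => hre r), ← Complex.re_sum, hgeom]
    simp

lemma dvd_iff_zero (N : ℕ) (l : ℤ) (h1 : -(2 * N : ℤ) < l) (h2 : l < 2 * N) :
    (2 * N : ℤ) ∣ l ↔ l = 0 := by
  constructor
  · intro h
    exact Int.eq_zero_of_abs_lt_dvd h (abs_lt.mpr ⟨h1, h2⟩)
  · rintro rfl; simp

lemma dvd_iff_eq (N : ℕ) (l : ℤ) (h1 : 0 < l) (h2 : l < 4 * N) :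
    (2 * N : ℤ) ∣ l ↔ l = 2 * N := by
  have h := dvd_iff_zero N (l - 2 * N) (by omega) (by omega)
  rw [dvd_sub_self_right] at h
  rw [h]
  omega

/-- T(l) -/
noncomputable def T (N : ℕ) (l : ℤ) : ℝ := ∑ r ∈ range (N - 1), Real.cos (Real.pi * l * (r + 1 : ℕ) / N)

lemma T_eq (N : ℕ) (hN : 0 < N) (l : ℤ) :
    T N l = (if (2 * N : ℤ) ∣ l then (N : ℝ) else 0) - (if Even l then 1 else 0) := by
  have hNr : (N : ℝ) ≠ 0 := by positivity
  obtain ⟨n, rfl⟩ : ∃ n, N = n + 1 := ⟨N - 1, by omega⟩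
  have h1 := sum_cos_full (n + 1) hN l
  have h2 : 2 * (n + 1) = (n + 1) + (n + 1) := by ring
  rw [h2, Finset.sum_range_add] at h1
  rw [Finset.sum_range_succ', Finset.sum_range_succ'] at h1
  have hT : T (n + 1) l = ∑ r ∈ range n, Real.cos (Real.pi * l * (r + 1 : ℕ) / (n + 1 : ℕ)) := by
    simp [T]
  have hA : ∑ k ∈ range n, Real.cos (Real.pi * l * ((n + 1 + (k + 1) : ℕ) : ℝ) / ((n + 1 : ℕ) : ℝ)) =
      T (n + 1) l := by
    rw [hT, ← Finset.sum_range_reflect]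
    apply Finset.sum_congr rfl
    intro k hk
    rw [Finset.mem_range] at hk
    have : Real.pi * l * ((n + 1 + (n - 1 - k + 1) : ℕ) : ℝ) / ((n + 1 : ℕ) : ℝ) =
        l * (2 * Real.pi) - Real.pi * l * ((k + 1 : ℕ) : ℝ) / ((n + 1 : ℕ) : ℝ) := by
      have e : ((n + 1 + (n - 1 - k + 1) : ℕ) : ℝ) = 2 * ((n + 1 : ℕ) : ℝ) - ((k + 1 : ℕ) : ℝ) := by
        have : n + 1 + (n - 1 - k + 1) + (k + 1) = 2 * (n + 1) := by omega
        have : (((n + 1 + (n - 1 - k + 1) + (k + 1) : ℕ)) : ℝ) = ((2 * (n + 1) : ℕ) : ℝ) := by rw [this]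
        push_cast at this ⊢
        linarith
      rw [e]
      field_simp
    rw [this, Real.cos_int_mul_two_pi_sub]
  rw [hA, ← hT] at h1
  have h0 : Real.cos (Real.pi * l * ((0 : ℕ) : ℝ) / ((n + 1 : ℕ) : ℝ)) = 1 := by simp
  have hNc : Real.cos (Real.pi * l * ((n + 1 + 0 : ℕ) : ℝ) / ((n + 1 : ℕ) : ℝ)) = if Even l then 1 else -1 := by
    have : Real.pi * l * ((n + 1 + 0 : ℕ) : ℝ) / ((n + 1 : ℕ) : ℝ) = l * Real.pi := by
      field_simp
    rw [this]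
    split_ifs with he
    · obtain ⟨k, rfl⟩ := he
      have : ((k + k : ℤ) : ℝ) * Real.pi = k * (2 * Real.pi) := by push_cast; ring
      rw [this, Real.cos_int_mul_two_pi]
    · rw [Int.not_even_iff_odd] at he
      obtain ⟨k, rfl⟩ := he
      have : ((2 * k + 1 : ℤ) : ℝ) * Real.pi = k * (2 * Real.pi) + Real.pi := by push_cast; ring
      rw [this, Real.cos_int_mul_two_pi_add_pi]
  rw [h0, hNc] at h1
  split_ifs at h1 ⊢ <;> push_cast at h1 ⊢ <;> linarith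


/-- eigenvalues of the path `P_n`: `2 cos (π r / (n+1))`, `r = 1, …, n` -/
noncomputable def theta (n : ℕ) (r : Fin n) : ℝ := 2 * Real.cos (Real.pi * ((r : ℕ) + 1 : ℕ) / (n + 1))

noncomputable def S (n : ℕ) : Matrix (Fin n) (Fin n) ℂ :=
  fun a r => ((Real.sin (Real.pi * (((a : ℕ) + 1 : ℕ) : ℝ) * (((r : ℕ) + 1 : ℕ) : ℝ) / ((n + 1 : ℕ) : ℝ)) : ℝ) : ℂ)

lemma sum_fin_eq_T (n : ℕ) (l : ℤ) :
    ∑ a : Fin n, Real.cos (Real.pi * l * (((a : ℕ) + 1 : ℕ) : ℝ) / ((n + 1 : ℕ) : ℝ)) = T (n + 1) l := by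
  rw [T, Finset.sum_range]
  simp

lemma SS (n : ℕ) : S n * S n = (((n + 1 : ℕ) : ℂ) / 2) • (1 : Matrix (Fin n) (Fin n) ℂ) := by
  ext a b
  rw [Matrix.mul_apply, Matrix.smul_apply, Matrix.one_apply]
  have h1 : ∀ r : Fin n, S n a r * S n r b =
      (((1 / 2) * (Real.cos (Real.pi * (((a : ℕ) : ℤ) - ((b : ℕ) : ℤ) : ℤ) * (((r : ℕ) + 1 : ℕ) : ℝ) / ((n + 1 : ℕ) : ℝ))
        - Real.cos (Real.pi * (((a : ℕ) : ℤ) + ((b : ℕ) : ℤ) + 2 : ℤ) * (((r : ℕ) + 1 : ℕ) : ℝ) / ((n + 1 : ℕ) : ℝ))) : ℝ) : ℂ) := by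
    intro r
    unfold S
    rw [← Complex.ofReal_mul]
    congr 1
    have e1 : Real.pi * (((a : ℕ) : ℤ) - ((b : ℕ) : ℤ) : ℤ) * (((r : ℕ) + 1 : ℕ) : ℝ) / ((n + 1 : ℕ) : ℝ) =
      Real.pi * (((a : ℕ) + 1 : ℕ) : ℝ) * (((r : ℕ) + 1 : ℕ) : ℝ) / ((n + 1 : ℕ) : ℝ) -
      Real.pi * (((r : ℕ) + 1 : ℕ) : ℝ) * (((b : ℕ) + 1 : ℕ) : ℝ) / ((n + 1 : ℕ) : ℝ) := by
      push_cast; ring
    have e2 : Real.pi * (((a : ℕ) : ℤ) + ((b : ℕ) : ℤ) + 2 : ℤ) * (((r : ℕ) + 1 : ℕ) : ℝ) / ((n + 1 : ℕ) : ℝ) =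
      Real.pi * (((a : ℕ) + 1 : ℕ) : ℝ) * (((r : ℕ) + 1 : ℕ) : ℝ) / ((n + 1 : ℕ) : ℝ) +
      Real.pi * (((r : ℕ) + 1 : ℕ) : ℝ) * (((b : ℕ) + 1 : ℕ) : ℝ) / ((n + 1 : ℕ) : ℝ) := by
      push_cast; ring
    rw [e1, e2, Real.cos_sub, Real.cos_add]
    ring
  rw [Finset.sum_congr rfl (fun r _ => h1 r), ← Complex.ofReal_sum, ← Finset.mul_sum,
    Finset.sum_sub_distrib, sum_fin_eq_T, sum_fin_eq_T, T_eq _ (by omega), T_eq _ (by omega)]
  have ha := a.2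
  have hb := b.2
  have p1 : ¬ ((2 * ((n + 1 : ℕ) : ℤ)) ∣ (((a : ℕ) : ℤ) + ((b : ℕ) : ℤ) + 2)) := by
    rw [dvd_iff_zero _ _ (by omega) (by omega)]
    omega
  have p2 : Even (((a : ℕ) : ℤ) + ((b : ℕ) : ℤ) + 2) ↔ Even (((a : ℕ) : ℤ) - ((b : ℕ) : ℤ)) := by
    constructor <;> rintro ⟨k, hk⟩
    · exact ⟨k - (b : ℕ) - 1, by linarith⟩
    · exact ⟨k + (b : ℕ) + 1, by linarith⟩
  have p3 : ((2 * ((n + 1 : ℕ) : ℤ)) ∣ (((a : ℕ) : ℤ) - ((b : ℕ) : ℤ))) ↔ a = b := by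
    rw [dvd_iff_zero _ _ (by omega) (by omega), Fin.ext_iff]
    omega
  simp only [p1, p2, p3, if_false]
  by_cases hab : a = b
  · subst hab
    simp
    ring
  · simp [hab]

lemma adj_mul_S (n : ℕ) : adj n * S n = S n * diagonal (fun r => ((theta n r : ℝ) : ℂ)) := by
  classical
  ext a r
  rw [Matrix.mul_apply, Matrix.mul_diagonal]
  have hadj : ∀ b : Fin n, adj n a b = (if ((a : ℕ) + 1 = b) then 1 else 0) + (if ((b : ℕ) + 1 = a) then 1 else 0) := by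
    intro b
    unfold adj
    rw [SimpleGraph.adjMatrix_apply]
    simp only [SimpleGraph.pathGraph_adj]
    by_cases h1 : (a : ℕ) + 1 = b
    · have h2 : ¬ ((b : ℕ) + 1 = a) := by omega
      simp [h1, h2]
    · by_cases h2 : (b : ℕ) + 1 = a
      · simp [h1, h2]
      · simp [h1, h2]
  set s : ℕ → ℂ := fun k => ((Real.sin (Real.pi * (k : ℝ) * (((r : ℕ) + 1 : ℕ) : ℝ) / ((n + 1 : ℕ) : ℝ)) : ℝ) : ℂ) with hs
  have hS : ∀ b : Fin n, S n b r = s ((b : ℕ) + 1) := by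
    intro b
    simp [S, hs]
  have hs0 : s 0 = 0 := by simp [hs]
  have hsN : s (n + 1) = 0 := by
    simp only [hs]
    have : Real.pi * ((n + 1 : ℕ) : ℝ) * (((r : ℕ) + 1 : ℕ) : ℝ) / ((n + 1 : ℕ) : ℝ) = (((r : ℕ) + 1 : ℕ) : ℝ) * Real.pi := by
      field_simp
    rw [this, Real.sin_nat_mul_pi]
    simp
  have hlhs : ∑ b, adj n a b * S n b r = s ((a : ℕ) + 2) + s (a : ℕ) := by
    have : ∀ b : Fin n, adj n a b * S n b r =
        (if ((a : ℕ) + 1 = b) then s ((b : ℕ) + 1) else 0) + (if ((b : ℕ) + 1 = a) then s ((b : ℕ) + 1) else 0) := by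
      intro b
      rw [hadj, hS]
      split_ifs <;> ring
    rw [Finset.sum_congr rfl (fun b _ => this b), Finset.sum_add_distrib]
    congr 1
    · by_cases h : (a : ℕ) + 1 < n
      · rw [Finset.sum_eq_single (⟨(a : ℕ) + 1, h⟩ : Fin n)]
        · simp
        · intro b _ hb
          rw [if_neg]
          intro h'
          apply hb
          apply Fin.ext
          exact h'.symm
        · simp
      · rw [Finset.sum_eq_zero]
        · have : (a : ℕ) + 2 = n + 1 := by have := a.2; omega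
          rw [this, hsN]
        · intro b _
          rw [if_neg]
          have := b.2
          omega
    · by_cases h : 0 < (a : ℕ)
      · rw [Finset.sum_eq_single (⟨(a : ℕ) - 1, by have := a.2; omega⟩ : Fin n)]
        · simp only
          rw [if_pos (by omega)]
          congr 1
          omega
        · intro b _ hb
          rw [if_neg]
          intro h'
          apply hb
          apply Fin.ext
          simp only
          omega
        · simp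
      · rw [Finset.sum_eq_zero]
        · have : (a : ℕ) = 0 := by omega
          rw [this, hs0]
        · intro b _
          rw [if_neg]
          omega
  rw [hlhs, hS, theta]
  simp only [hs]
  rw [← Complex.ofReal_add, ← Complex.ofReal_mul]
  congr 1
  have e1 : Real.pi * (((a : ℕ) + 2 : ℕ) : ℝ) * (((r : ℕ) + 1 : ℕ) : ℝ) / ((n + 1 : ℕ) : ℝ) =
    Real.pi * (((a : ℕ) + 1 : ℕ) : ℝ) * (((r : ℕ) + 1 : ℕ) : ℝ) / ((n + 1 : ℕ) : ℝ) +
      Real.pi * (((r : ℕ) + 1 : ℕ) : ℝ) / (n + 1) := by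
    push_cast; ring
  have e2 : Real.pi * (((a : ℕ) : ℕ) : ℝ) * (((r : ℕ) + 1 : ℕ) : ℝ) / ((n + 1 : ℕ) : ℝ) =
    Real.pi * (((a : ℕ) + 1 : ℕ) : ℝ) * (((r : ℕ) + 1 : ℕ) : ℝ) / ((n + 1 : ℕ) : ℝ) -
      Real.pi * (((r : ℕ) + 1 : ℕ) : ℝ) / (n + 1) := by
    push_cast; ring
  rw [e1, e2, Real.sin_add, Real.sin_sub]
  ring

lemma S_isUnit (n : ℕ) : IsUnit (S n) := by
  have h := SS n
  have hN : (((n + 1 : ℕ) : ℂ) / 2) ≠ 0 :=
    div_ne_zero (by exact_mod_cast Nat.succ_ne_zero n) two_ne_zero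
  refine ⟨⟨S n, (((n + 1 : ℕ) : ℂ) / 2)⁻¹ • S n, ?_, ?_⟩, rfl⟩
  · rw [Matrix.mul_smul, h, smul_smul, inv_mul_cancel₀ hN, one_smul]
  · rw [Matrix.smul_mul, h, smul_smul, inv_mul_cancel₀ hN, one_smul]

lemma S_inv (n : ℕ) : (S n)⁻¹ = (((n + 1 : ℕ) : ℂ) / 2)⁻¹ • S n := by
  have hN : (((n + 1 : ℕ) : ℂ) / 2) ≠ 0 :=
    div_ne_zero (by exact_mod_cast Nat.succ_ne_zero n) two_ne_zero
  apply Matrix.inv_eq_left_inv
  rw [Matrix.smul_mul, SS n, smul_smul, inv_mul_cancel₀ hN, one_smul]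

lemma U_eq (n : ℕ) (t : ℝ) : U n t =
    S n * diagonal (fun r => Complex.exp (Complex.I * t * (theta n r : ℝ))) * (S n)⁻¹ := by
  have h1 : adj n = S n * diagonal (fun r => ((theta n r : ℝ) : ℂ)) * (S n)⁻¹ := by
    rw [← adj_mul_S, Matrix.mul_assoc, Matrix.mul_nonsing_inv _ ((Matrix.isUnit_iff_isUnit_det _).mp (S_isUnit n)), Matrix.mul_one]
  have h2 : (Complex.I * (t : ℂ)) • adj n = S n * diagonal (fun r => Complex.I * t * (theta n r : ℝ)) * (S n)⁻¹ := by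
    rw [h1]
    rw [← Matrix.smul_mul, ← Matrix.mul_smul]
    congr 2
    ext i j
    by_cases hij : i = j
    · subst hij
      simp
    · simp [hij]
  unfold U
  rw [h2, Matrix.exp_conj _ _ (S_isUnit n), Matrix.exp_diagonal]
  congr 3
  ext r
  rw [Pi.coe_exp, Complex.exp_eq_exp_ℂ]


noncomputable def sn (n : ℕ) (a r : Fin n) : ℝ :=
  Real.sin (Real.pi * (((a : ℕ) + 1 : ℕ) : ℝ) * (((r : ℕ) + 1 : ℕ) : ℝ) / ((n + 1 : ℕ) : ℝ))

lemma sn_symm (n : ℕ) (a r : Fin n) : sn n a r = sn n r a := by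
  unfold sn
  congr 1
  ring

/-- general form of the (averaged) mixing matrix -/
noncomputable def MM (n : ℕ) (g : ℝ → ℝ) (a b : Fin n) : ℝ :=
  (4 / ((n + 1 : ℕ) : ℝ) ^ 2) * ∑ r, ∑ s, g (theta n r - theta n s) *
    ((sn n a r * sn n b r) * (sn n a s * sn n b s))

lemma M_eq (n : ℕ) (t : ℝ) (a b : Fin n) : M n t a b = MM n (fun x => Real.cos (t * x)) a b := by
  have hU : U n t a b = (2 / ((n + 1 : ℕ) : ℂ)) * ∑ r, Complex.exp (Complex.I * t * (theta n r : ℝ)) *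
      ((sn n a r * sn n b r : ℝ) : ℂ) := by
    rw [U_eq, S_inv, Matrix.mul_smul, Matrix.smul_apply, Matrix.mul_apply, inv_div, smul_eq_mul]
    congr 1
    apply Finset.sum_congr rfl
    intro r _
    rw [Matrix.mul_diagonal]
    have h1 : S n a r = (sn n a r : ℂ) := rfl
    have h2 : S n r b = (sn n b r : ℂ) := by
      rw [sn_symm]; rfl
    rw [h1, h2]
    push_cast
    ring
  have hre : (U n t a b).re = (2 / ((n + 1 : ℕ) : ℝ)) * ∑ r, Real.cos (t * theta n r) * (sn n a r * sn n b r) := by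
    rw [hU]
    have : (2 / ((n + 1 : ℕ) : ℂ)) = ((2 / ((n + 1 : ℕ) : ℝ) : ℝ) : ℂ) := by push_cast; ring
    rw [this, Complex.re_ofReal_mul, Complex.re_sum]
    congr 1
    apply Finset.sum_congr rfl
    intro r _
    rw [Complex.re_mul_ofReal]
    congr 1
    have : Complex.I * t * (theta n r : ℝ) = ((t * theta n r : ℝ) : ℂ) * Complex.I := by push_cast; ring
    rw [this, Complex.exp_ofReal_mul_I_re]
  have him : (U n t a b).im = (2 / ((n + 1 : ℕ) : ℝ)) * ∑ r, Real.sin (t * theta n r) * (sn n a r * sn n b r) := by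
    rw [hU]
    have : (2 / ((n + 1 : ℕ) : ℂ)) = ((2 / ((n + 1 : ℕ) : ℝ) : ℝ) : ℂ) := by push_cast; ring
    rw [this, Complex.im_ofReal_mul, Complex.im_sum]
    congr 1
    apply Finset.sum_congr rfl
    intro r _
    rw [Complex.im_mul_ofReal]
    congr 1
    have : Complex.I * t * (theta n r : ℝ) = ((t * theta n r : ℝ) : ℂ) * Complex.I := by push_cast; ring
    rw [this, Complex.exp_ofReal_mul_I_im]
  unfold M
  rw [Complex.sq_norm, Complex.normSq_apply, hre, him]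
  unfold MM
  have key : ∑ r, ∑ s, Real.cos (t * (theta n r - theta n s)) * ((sn n a r * sn n b r) * (sn n a s * sn n b s)) =
      (∑ r, Real.cos (t * theta n r) * (sn n a r * sn n b r)) * (∑ r, Real.cos (t * theta n r) * (sn n a r * sn n b r)) +
      (∑ r, Real.sin (t * theta n r) * (sn n a r * sn n b r)) * (∑ r, Real.sin (t * theta n r) * (sn n a r * sn n b r)) := by
    rw [Finset.sum_mul_sum, Finset.sum_mul_sum, ← Finset.sum_add_distrib]
    apply Finset.sum_congr rfl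
    intro r _
    rw [← Finset.sum_add_distrib]
    apply Finset.sum_congr rfl
    intro s _
    rw [mul_sub, Real.cos_sub]
    ring
  rw [key]
  ring

lemma sum_sn_sn (n : ℕ) (r s : Fin n) : ∑ b, sn n b r * sn n b s = if r = s then ((n + 1 : ℕ) : ℝ) / 2 else 0 := by
  have h := congrFun (congrFun (SS n) r) s
  rw [Matrix.mul_apply, Matrix.smul_apply, Matrix.one_apply] at h
  have h2 : ∀ b : Fin n, S n r b * S n b s = ((sn n b r * sn n b s : ℝ) : ℂ) := by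
    intro b
    have h1 : S n r b = (sn n b r : ℂ) := by rw [sn_symm]; rfl
    have h2 : S n b s = (sn n b s : ℂ) := rfl
    rw [h1, h2]
    push_cast
    ring
  rw [Finset.sum_congr rfl (fun b _ => h2 b), ← Complex.ofReal_sum] at h
  split_ifs at h ⊢ with hrs
  · have : ((∑ b, sn n b r * sn n b s : ℝ) : ℂ) = (((n + 1 : ℕ) : ℝ) / 2 : ℝ) := by
      rw [h]; push_cast; simp
    exact_mod_cast this
  · have : ((∑ b, sn n b r * sn n b s : ℝ) : ℂ) = (0 : ℝ) := by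
      rw [h]; simp
    exact_mod_cast this

lemma MM_row (n : ℕ) (g : ℝ → ℝ) (hg : g 0 = 1) (a : Fin n) : ∑ b, MM n g a b = 1 := by
  unfold MM
  rw [← Finset.mul_sum, Finset.sum_comm]
  have hN : ((n + 1 : ℕ) : ℝ) ≠ 0 := by positivity
  have : ∀ r : Fin n, ∑ b, ∑ s, g (theta n r - theta n s) * ((sn n a r * sn n b r) * (sn n a s * sn n b s)) =
      (((n + 1 : ℕ) : ℝ) / 2) * (sn n r a * sn n r a) := by
    intro r
    rw [Finset.sum_comm]
    have : ∀ s : Fin n, ∑ b, g (theta n r - theta n s) * ((sn n a r * sn n b r) * (sn n a s * sn n b s)) =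
        if r = s then (((n + 1 : ℕ) : ℝ) / 2) * (sn n r a * sn n r a) else 0 := by
      intro s
      have e : ∀ b, g (theta n r - theta n s) * ((sn n a r * sn n b r) * (sn n a s * sn n b s)) =
          g (theta n r - theta n s) * (sn n a r * sn n a s) * (sn n b r * sn n b s) := by
        intro b; ring
      rw [Finset.sum_congr rfl (fun b _ => e b), ← Finset.mul_sum, sum_sn_sn]
      split_ifs with h
      · subst h
        rw [sub_self, hg, sn_symm n a r]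
        ring
      · ring
    rw [Finset.sum_congr rfl (fun s _ => this s)]
    simp
  rw [Finset.sum_congr rfl (fun r _ => this r), ← Finset.mul_sum, sum_sn_sn, if_pos rfl]
  field_simp
  norm_num

lemma MM_symm (n : ℕ) (g : ℝ → ℝ) (a b : Fin n) : MM n g a b = MM n g b a := by
  unfold MM
  congr 1
  apply Finset.sum_congr rfl
  intro r _
  apply Finset.sum_congr rfl
  intro s _
  ring


noncomputable def cc (n : ℕ) (k : ℤ) (a : Fin n) : ℝ :=
  Real.cos (Real.pi * k * (((a : ℕ) + 1 : ℕ) : ℝ) / ((n + 1 : ℕ) : ℝ))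

noncomputable def W (n : ℕ) (k : ℤ) (r s : Fin n) : ℝ :=
  (2 / ((n + 1 : ℕ) : ℝ)) * ∑ a, cc n k a * (sn n a r * sn n a s)

/-- indicator of divisibility by `2(n+1)` -/
def dd (n : ℕ) (l : ℤ) : ℝ := if (2 * ((n + 1 : ℕ) : ℤ)) ∣ l then 1 else 0

lemma W_eq (n : ℕ) (k : ℤ) (r s : Fin n) : W n k r s =
    (1 / 2) * (dd n ((r : ℕ) - (s : ℕ) - k) + dd n ((r : ℕ) - (s : ℕ) + k)
      - dd n ((r : ℕ) + (s : ℕ) + 2 - k) - dd n ((r : ℕ) + (s : ℕ) + 2 + k)) := by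
  have hN : ((n + 1 : ℕ) : ℝ) ≠ 0 := by positivity
  have h1 : ∀ a : Fin n, cc n k a * (sn n a r * sn n a s) = (1 / 4) *
      (Real.cos (Real.pi * (((r : ℕ) : ℤ) - ((s : ℕ) : ℤ) - k : ℤ) * (((a : ℕ) + 1 : ℕ) : ℝ) / ((n + 1 : ℕ) : ℝ))
       + Real.cos (Real.pi * (((r : ℕ) : ℤ) - ((s : ℕ) : ℤ) + k : ℤ) * (((a : ℕ) + 1 : ℕ) : ℝ) / ((n + 1 : ℕ) : ℝ))
       - Real.cos (Real.pi * (((r : ℕ) : ℤ) + ((s : ℕ) : ℤ) + 2 - k : ℤ) * (((a : ℕ) + 1 : ℕ) : ℝ) / ((n + 1 : ℕ) : ℝ))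
       - Real.cos (Real.pi * (((r : ℕ) : ℤ) + ((s : ℕ) : ℤ) + 2 + k : ℤ) * (((a : ℕ) + 1 : ℕ) : ℝ) / ((n + 1 : ℕ) : ℝ))) := by
    intro a
    unfold cc sn
    set X := Real.pi * (((a : ℕ) + 1 : ℕ) : ℝ) * (((r : ℕ) + 1 : ℕ) : ℝ) / ((n + 1 : ℕ) : ℝ) with hX
    set Y := Real.pi * (((a : ℕ) + 1 : ℕ) : ℝ) * (((s : ℕ) + 1 : ℕ) : ℝ) / ((n + 1 : ℕ) : ℝ) with hY
    set Z := Real.pi * (k : ℝ) * (((a : ℕ) + 1 : ℕ) : ℝ) / ((n + 1 : ℕ) : ℝ) with hZ
    have e1 : Real.pi * (((r : ℕ) : ℤ) - ((s : ℕ) : ℤ) - k : ℤ) * (((a : ℕ) + 1 : ℕ) : ℝ) / ((n + 1 : ℕ) : ℝ) = X - Y - Z := by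
      rw [hX, hY, hZ]; push_cast; ring
    have e2 : Real.pi * (((r : ℕ) : ℤ) - ((s : ℕ) : ℤ) + k : ℤ) * (((a : ℕ) + 1 : ℕ) : ℝ) / ((n + 1 : ℕ) : ℝ) = X - Y + Z := by
      rw [hX, hY, hZ]; push_cast; ring
    have e3 : Real.pi * (((r : ℕ) : ℤ) + ((s : ℕ) : ℤ) + 2 - k : ℤ) * (((a : ℕ) + 1 : ℕ) : ℝ) / ((n + 1 : ℕ) : ℝ) = X + Y - Z := by
      rw [hX, hY, hZ]; push_cast; ring
    have e4 : Real.pi * (((r : ℕ) : ℤ) + ((s : ℕ) : ℤ) + 2 + k : ℤ) * (((a : ℕ) + 1 : ℕ) : ℝ) / ((n + 1 : ℕ) : ℝ) = X + Y + Z := by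
      rw [hX, hY, hZ]; push_cast; ring
    rw [e1, e2, e3, e4, Real.cos_sub (X - Y) Z, Real.cos_add (X - Y) Z, Real.cos_sub (X + Y) Z,
      Real.cos_add (X + Y) Z, Real.cos_sub X Y, Real.cos_add X Y]
    ring
  unfold W
  rw [Finset.sum_congr rfl (fun a _ => h1 a), ← Finset.mul_sum, Finset.sum_sub_distrib,
    Finset.sum_sub_distrib, Finset.sum_add_distrib, sum_fin_eq_T, sum_fin_eq_T, sum_fin_eq_T,
    sum_fin_eq_T, T_eq _ (by omega), T_eq _ (by omega), T_eq _ (by omega), T_eq _ (by omega)]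
  have hp2 : Even (((r : ℕ) : ℤ) - ((s : ℕ) : ℤ) + k) ↔ Even (((r : ℕ) : ℤ) - ((s : ℕ) : ℤ) - k) := by
    constructor <;> rintro ⟨q, hq⟩
    · exact ⟨q - k, by linarith⟩
    · exact ⟨q + k, by linarith⟩
  have hp3 : Even (((r : ℕ) : ℤ) + ((s : ℕ) : ℤ) + 2 - k) ↔ Even (((r : ℕ) : ℤ) - ((s : ℕ) : ℤ) - k) := by
    constructor <;> rintro ⟨q, hq⟩
    · exact ⟨q - (s : ℕ) - 1, by linarith⟩
    · exact ⟨q + (s : ℕ) + 1, by linarith⟩
  have hp4 : Even (((r : ℕ) : ℤ) + ((s : ℕ) : ℤ) + 2 + k) ↔ Even (((r : ℕ) : ℤ) - ((s : ℕ) : ℤ) - k) := by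
    constructor <;> rintro ⟨q, hq⟩
    · exact ⟨q - (s : ℕ) - 1 - k, by linarith⟩
    · exact ⟨q + (s : ℕ) + 1 + k, by linarith⟩
  simp only [hp2, hp3, hp4]
  unfold dd
  split_ifs <;> field_simp <;> ring

lemma sum4 {ι : Type*} [Fintype ι] (f : ι → ι → ι → ι → ℝ) :
    ∑ r, ∑ s, ∑ a, ∑ b, f r s a b = ∑ a, ∑ b, ∑ r, ∑ s, f r s a b := by
  calc ∑ r, ∑ s, ∑ a, ∑ b, f r s a b
      = ∑ r, ∑ a, ∑ s, ∑ b, f r s a b := Finset.sum_congr rfl (fun r _ => Finset.sum_comm)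
    _ = ∑ a, ∑ r, ∑ s, ∑ b, f r s a b := Finset.sum_comm
    _ = ∑ a, ∑ r, ∑ b, ∑ s, f r s a b := Finset.sum_congr rfl (fun a _ =>
        Finset.sum_congr rfl (fun r _ => Finset.sum_comm))
    _ = ∑ a, ∑ b, ∑ r, ∑ s, f r s a b := Finset.sum_congr rfl (fun a _ => Finset.sum_comm)

lemma MM_transform (n : ℕ) (g : ℝ → ℝ) (j k : ℤ) :
    ∑ a, ∑ b, cc n j a * cc n k b * MM n g a b =
      ∑ r, ∑ s, g (theta n r - theta n s) * (W n j r s * W n k r s) := by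
  have h1 : ∀ r s : Fin n, g (theta n r - theta n s) * (W n j r s * W n k r s) =
      ∑ a, ∑ b, (4 / ((n + 1 : ℕ) : ℝ) ^ 2) * (g (theta n r - theta n s) *
        ((cc n j a * (sn n a r * sn n a s)) * (cc n k b * (sn n b r * sn n b s)))) := by
    intro r s
    unfold W
    have : (2 / ((n + 1 : ℕ) : ℝ)) * (∑ a, cc n j a * (sn n a r * sn n a s)) *
      ((2 / ((n + 1 : ℕ) : ℝ)) * ∑ b, cc n k b * (sn n b r * sn n b s)) =
      (4 / ((n + 1 : ℕ) : ℝ) ^ 2) * ((∑ a, cc n j a * (sn n a r * sn n a s)) *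
        (∑ b, cc n k b * (sn n b r * sn n b s))) := by ring
    rw [this, Finset.sum_mul_sum, Finset.mul_sum, Finset.mul_sum]
    apply Finset.sum_congr rfl
    intro a _
    rw [Finset.mul_sum, Finset.mul_sum]
    apply Finset.sum_congr rfl
    intro b _
    ring
  simp_rw [h1]
  rw [sum4]
  apply Finset.sum_congr rfl
  intro a _
  apply Finset.sum_congr rfl
  intro b _
  unfold MM
  rw [Finset.mul_sum, Finset.mul_sum]
  apply Finset.sum_congr rfl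
  intro r _
  rw [Finset.mul_sum, Finset.mul_sum]
  apply Finset.sum_congr rfl
  intro s _
  ring

/-- `θ_k = 2 cos (π k / (n+1))` for natural `k`. -/
noncomputable def th (n : ℕ) (k : ℕ) : ℝ := 2 * Real.cos (Real.pi * (k : ℕ) / (n + 1))

lemma theta_eq (n : ℕ) (r : Fin n) : theta n r = th n ((r : ℕ) + 1) := rfl

lemma th_refl (n k : ℕ) (hk : k ≤ n + 1) : th n (n + 1 - k) = - th n k := by
  unfold th
  have : Real.pi * ((n + 1 - k : ℕ) : ℝ) / (n + 1) = Real.pi - Real.pi * (k : ℝ) / (n + 1) := by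
    rw [Nat.cast_sub hk]
    have : ((n : ℝ) + 1) ≠ 0 := by positivity
    field_simp
    push_cast
    ring
  rw [this, Real.cos_pi_sub]
  ring

lemma dd_of_zero (n : ℕ) (l : ℤ) (P : Prop) [Decidable P] (h1 : -(2 * ((n + 1 : ℕ) : ℤ)) < l)
    (h2 : l < 2 * ((n + 1 : ℕ) : ℤ)) (h : l = 0 ↔ P) : dd n l = if P then 1 else 0 := by
  unfold dd
  simp only [dvd_iff_zero _ _ h1 h2, h]

lemma dd_of_eq (n : ℕ) (l : ℤ) (P : Prop) [Decidable P] (h1 : 0 < l)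
    (h2 : l < 4 * ((n + 1 : ℕ) : ℤ)) (h : l = 2 * ((n + 1 : ℕ) : ℤ) ↔ P) : dd n l = if P then 1 else 0 := by
  unfold dd
  simp only [dvd_iff_eq _ _ h1 h2, h]

lemma WW (n p q : ℕ) (hq : 1 ≤ q) (hpq : q < p) (hN : p + q ≤ n + 1) (r s : Fin n) :
    W n ((p : ℤ) - q) r s * W n ((p : ℤ) + q) r s = -(1 / 4) * (
      (if ((r : ℕ) + 1 = p ∧ (s : ℕ) + 1 = q) then 1 else 0) +
      (if ((r : ℕ) + 1 = q ∧ (s : ℕ) + 1 = p) then 1 else 0) +
      (if ((r : ℕ) + 1 = n + 1 - q ∧ (s : ℕ) + 1 = n + 1 - p) then 1 else 0) +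
      (if ((r : ℕ) + 1 = n + 1 - p ∧ (s : ℕ) + 1 = n + 1 - q) then 1 else 0)) := by
  have hr := r.2
  have hs := s.2
  rw [W_eq, W_eq]
  have a1 : dd n (((r : ℕ) : ℤ) - ((s : ℕ) : ℤ) - ((p : ℤ) - q)) = if ((r : ℕ) + q = (s : ℕ) + p) then 1 else 0 := by
    apply dd_of_zero <;> omega
  have a2 : dd n (((r : ℕ) : ℤ) - ((s : ℕ) : ℤ) + ((p : ℤ) - q)) = if ((s : ℕ) + q = (r : ℕ) + p) then 1 else 0 := by
    apply dd_of_zero <;> omega
  have a3 : dd n (((r : ℕ) : ℤ) + ((s : ℕ) : ℤ) + 2 - ((p : ℤ) - q)) = if ((r : ℕ) + (s : ℕ) + 2 + q = p) then 1 else 0 := by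
    apply dd_of_zero <;> omega
  have a4 : dd n (((r : ℕ) : ℤ) + ((s : ℕ) : ℤ) + 2 + ((p : ℤ) - q)) = if ((r : ℕ) + (s : ℕ) + 2 + p = 2 * (n + 1) + q) then 1 else 0 := by
    apply dd_of_eq <;> omega
  have b1 : dd n (((r : ℕ) : ℤ) - ((s : ℕ) : ℤ) - ((p : ℤ) + q)) = if ((r : ℕ) = (s : ℕ) + p + q) then 1 else 0 := by
    apply dd_of_zero <;> omega
  have b2 : dd n (((r : ℕ) : ℤ) - ((s : ℕ) : ℤ) + ((p : ℤ) + q)) = if ((s : ℕ) = (r : ℕ) + p + q) then 1 else 0 := by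
    apply dd_of_zero <;> omega
  have b3 : dd n (((r : ℕ) : ℤ) + ((s : ℕ) : ℤ) + 2 - ((p : ℤ) + q)) = if ((r : ℕ) + (s : ℕ) + 2 = p + q) then 1 else 0 := by
    apply dd_of_zero <;> omega
  have b4 : dd n (((r : ℕ) : ℤ) + ((s : ℕ) : ℤ) + 2 + ((p : ℤ) + q)) = if ((r : ℕ) + (s : ℕ) + 2 + p + q = 2 * (n + 1)) then 1 else 0 := by
    apply dd_of_eq <;> omega
  rw [a1, a2, a3, a4, b1, b2, b3, b4]
  clear a1 a2 a3 a4 b1 b2 b3 b4
  set A1 : ℝ := if ((r : ℕ) + q = (s : ℕ) + p) then 1 else 0 with hA1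
  set A2 : ℝ := if ((s : ℕ) + q = (r : ℕ) + p) then 1 else 0 with hA2
  set A3 : ℝ := if ((r : ℕ) + (s : ℕ) + 2 + q = p) then 1 else 0 with hA3
  set A4 : ℝ := if ((r : ℕ) + (s : ℕ) + 2 + p = 2 * (n + 1) + q) then 1 else 0 with hA4
  set B1 : ℝ := if ((r : ℕ) = (s : ℕ) + p + q) then 1 else 0 with hB1
  set B2 : ℝ := if ((s : ℕ) = (r : ℕ) + p + q) then 1 else 0 with hB2
  set B3 : ℝ := if ((r : ℕ) + (s : ℕ) + 2 = p + q) then 1 else 0 with hB3
  set B4 : ℝ := if ((r : ℕ) + (s : ℕ) + 2 + p + q = 2 * (n + 1)) then 1 else 0 with hB4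
  set E1 : ℝ := if ((r : ℕ) + 1 = p ∧ (s : ℕ) + 1 = q) then 1 else 0 with hE1
  set E2 : ℝ := if ((r : ℕ) + 1 = q ∧ (s : ℕ) + 1 = p) then 1 else 0 with hE2
  set E3 : ℝ := if ((r : ℕ) + 1 = n + 1 - q ∧ (s : ℕ) + 1 = n + 1 - p) then 1 else 0 with hE3
  set E4 : ℝ := if ((r : ℕ) + 1 = n + 1 - p ∧ (s : ℕ) + 1 = n + 1 - q) then 1 else 0 with hE4
  have h11 : A1 * B1 = 0 := by rw [hA1, hB1]; split_ifs <;> first | omega | simp
  have h12 : A1 * B2 = 0 := by rw [hA1, hB2]; split_ifs <;> first | omega | simp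
  have h13 : A1 * B3 = E1 := by rw [hA1, hB3, hE1]; split_ifs <;> first | omega | simp
  have h14 : A1 * B4 = E3 := by rw [hA1, hB4, hE3]; split_ifs <;> first | omega | simp
  have h21 : A2 * B1 = 0 := by rw [hA2, hB1]; split_ifs <;> first | omega | simp
  have h22 : A2 * B2 = 0 := by rw [hA2, hB2]; split_ifs <;> first | omega | simp
  have h23 : A2 * B3 = E2 := by rw [hA2, hB3, hE2]; split_ifs <;> first | omega | simp
  have h24 : A2 * B4 = E4 := by rw [hA2, hB4, hE4]; split_ifs <;> first | omega | simp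
  have h31 : A3 * B1 = 0 := by rw [hA3, hB1]; split_ifs <;> first | omega | simp
  have h32 : A3 * B2 = 0 := by rw [hA3, hB2]; split_ifs <;> first | omega | simp
  have h33 : A3 * B3 = 0 := by rw [hA3, hB3]; split_ifs <;> first | omega | simp
  have h34 : A3 * B4 = 0 := by rw [hA3, hB4]; split_ifs <;> first | omega | simp
  have h41 : A4 * B1 = 0 := by rw [hA4, hB1]; split_ifs <;> first | omega | simp
  have h42 : A4 * B2 = 0 := by rw [hA4, hB2]; split_ifs <;> first | omega | simp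
  have h43 : A4 * B3 = 0 := by rw [hA4, hB3]; split_ifs <;> first | omega | simp
  have h44 : A4 * B4 = 0 := by rw [hA4, hB4]; split_ifs <;> first | omega | simp
  linear_combination (1 / 4) * (h11 + h12 - h13 - h14 + h21 + h22 - h23 - h24 - h31 - h32 + h33 + h34
    - h41 - h42 + h43 + h44)


lemma sum_ind (n : ℕ) (F : Fin n → Fin n → ℝ) (p q : ℕ) (hp : 1 ≤ p) (hp' : p ≤ n) (hq : 1 ≤ q)
    (hq' : q ≤ n) :
    ∑ r, ∑ s, F r s * (if ((r : ℕ) + 1 = p ∧ (s : ℕ) + 1 = q) then 1 else 0) =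
      F ⟨p - 1, by omega⟩ ⟨q - 1, by omega⟩ := by
  rw [Finset.sum_eq_single (⟨p - 1, by omega⟩ : Fin n)]
  · rw [Finset.sum_eq_single (⟨q - 1, by omega⟩ : Fin n)]
    · rw [if_pos]
      · ring
      · constructor <;> simp only <;> omega
    · intro s _ hs
      rw [if_neg]
      · ring
      · rintro ⟨_, h⟩
        apply hs
        apply Fin.ext
        simp only
        omega
    · simp
  · intro r _ hr
    apply Finset.sum_eq_zero
    intro s _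
    rw [if_neg]
    · ring
    · rintro ⟨h, _⟩
      apply hr
      apply Fin.ext
      simp only
      omega
  · simp

lemma extract (n : ℕ) (g : ℝ → ℝ) (hg : ∀ x, g (-x) = g x) (p q : ℕ) (hq : 1 ≤ q) (hpq : q < p)
    (hN : p + q ≤ n + 1) :
    ∑ a, ∑ b, cc n ((p : ℤ) - q) a * cc n ((p : ℤ) + q) b * MM n g a b = - g (th n p - th n q) := by
  rw [MM_transform]
  have h1 : ∀ r s : Fin n, g (theta n r - theta n s) * (W n ((p : ℤ) - q) r s * W n ((p : ℤ) + q) r s) =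
      -(1 / 4) * (g (theta n r - theta n s) * (if ((r : ℕ) + 1 = p ∧ (s : ℕ) + 1 = q) then 1 else 0) +
        g (theta n r - theta n s) * (if ((r : ℕ) + 1 = q ∧ (s : ℕ) + 1 = p) then 1 else 0) +
        g (theta n r - theta n s) * (if ((r : ℕ) + 1 = n + 1 - q ∧ (s : ℕ) + 1 = n + 1 - p) then 1 else 0) +
        g (theta n r - theta n s) * (if ((r : ℕ) + 1 = n + 1 - p ∧ (s : ℕ) + 1 = n + 1 - q) then 1 else 0)) := by
    intro r s
    rw [WW n p q hq hpq hN]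
    ring
  simp_rw [h1, ← Finset.mul_sum, Finset.sum_add_distrib]
  rw [sum_ind n (fun r s => g (theta n r - theta n s)) p q (by omega) (by omega) (by omega) (by omega),
    sum_ind n (fun r s => g (theta n r - theta n s)) q p (by omega) (by omega) (by omega) (by omega),
    sum_ind n (fun r s => g (theta n r - theta n s)) (n + 1 - q) (n + 1 - p) (by omega) (by omega) (by omega) (by omega),
    sum_ind n (fun r s => g (theta n r - theta n s)) (n + 1 - p) (n + 1 - q) (by omega) (by omega) (by omega) (by omega)]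
  simp only [theta_eq]
  have e1 : p - 1 + 1 = p := by omega
  have e2 : q - 1 + 1 = q := by omega
  have e3 : n + 1 - q - 1 + 1 = n + 1 - q := by omega
  have e4 : n + 1 - p - 1 + 1 = n + 1 - p := by omega
  rw [e1, e2, e3, e4, th_refl n q (by omega), th_refl n p (by omega)]
  have f1 : g (th n q - th n p) = g (th n p - th n q) := by rw [← hg]; congr 1; ring
  have f2 : g (-th n q - -th n p) = g (th n p - th n q) := by congr 1; ring
  have f3 : g (-th n p - -th n q) = g (th n p - th n q) := by rw [← hg]; congr 1; ring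
  rw [f1, f2, f3]
  ring

lemma sum_cc (n : ℕ) (k : ℤ) (hk : 0 < k) (hk' : k < 2 * ((n + 1 : ℕ) : ℤ)) :
    ∑ a, cc n k a = - (if Even k then 1 else 0) := by
  have h := sum_fin_eq_T n k
  rw [T_eq _ (by omega), if_neg (by rw [dvd_iff_zero _ _ (by omega) hk']; omega)] at h
  unfold cc
  rw [h]
  ring

/-- value required for the pair `p, q` -/
noncomputable def val (n p q : ℕ) : ℝ := if (p % 2 = q % 2) then - (1 / (n : ℝ)) else 0

/-- necessity -/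
lemma nec (n : ℕ) (g : ℝ → ℝ) (hg : ∀ x, g (-x) = g x) (h : ∀ a b, MM n g a b = 1 / n)
    (p q : ℕ) (hp : 1 ≤ p) (hp' : p ≤ n) (hq : 1 ≤ q) (hq' : q ≤ n) (hpq : p ≠ q) :
    g (th n p - th n q) = val n p q := by
  -- first the case `q < p`, `p + q ≤ n + 1`
  have main : ∀ p q : ℕ, 1 ≤ q → q < p → p + q ≤ n + 1 → g (th n p - th n q) = val n p q := by
    intro p q hq hpq hN
    have h1 := extract n g hg p q hq hpq hN
    simp_rw [h] at h1
    have h2 : ∑ a, ∑ b, cc n ((p : ℤ) - q) a * cc n ((p : ℤ) + q) b * (1 / (n : ℝ)) =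
        (∑ a, cc n ((p : ℤ) - q) a) * (∑ b, cc n ((p : ℤ) + q) b) * (1 / n) := by
      rw [Finset.sum_mul_sum, Finset.sum_mul]
      apply Finset.sum_congr rfl
      intro a _
      rw [Finset.sum_mul]
    rw [h2, sum_cc _ _ (by omega) (by omega), sum_cc _ _ (by omega) (by omega)] at h1
    unfold val
    by_cases hpar : p % 2 = q % 2
    · rw [if_pos hpar]
      have e1 : Even ((p : ℤ) - q) := by rw [Int.even_iff]; omega
      have e2 : Even ((p : ℤ) + q) := by rw [Int.even_iff]; omega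
      rw [if_pos e1, if_pos e2] at h1
      linarith
    · rw [if_neg hpar]
      have e1 : ¬ Even ((p : ℤ) - q) := by rw [Int.even_iff]; omega
      rw [if_neg e1] at h1
      linarith
  have main2 : ∀ p q : ℕ, 1 ≤ q → q < p → p ≤ n → g (th n p - th n q) = val n p q := by
    intro p q hq hpq hp
    by_cases hN : p + q ≤ n + 1
    · exact main p q hq hpq hN
    · have h1 := main (n + 1 - q) (n + 1 - p) (by omega) (by omega) (by omega)
      rw [th_refl n q (by omega), th_refl n p (by omega)] at h1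
      have e : -th n q - -th n p = th n p - th n q := by ring
      rw [e] at h1
      rw [h1]
      unfold val
      have : ((n + 1 - q) % 2 = (n + 1 - p) % 2) ↔ (p % 2 = q % 2) := by omega
      simp only [this]
  rcases lt_or_gt_of_ne hpq with hlt | hlt
  · have h1 := main2 q p hp hlt hq'
    rw [← hg, show -(th n p - th n q) = th n q - th n p by ring, h1]
    unfold val
    simp only [eq_comm]
  · exact main2 p q hq hlt hp'


lemma sum_x (n : ℕ) (a b : Fin n) : ∑ r, sn n a r * sn n b r = if a = b then ((n + 1 : ℕ) : ℝ) / 2 else 0 := by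
  have h := sum_sn_sn n a b
  rw [← h]
  apply Finset.sum_congr rfl
  intro r _
  rw [sn_symm n a r, sn_symm n b r]

lemma sn_rev (n : ℕ) (b r : Fin n) : (-1 : ℝ) ^ ((r : ℕ) + 1) * sn n b r = - sn n (Fin.rev b) r := by
  unfold sn
  have h1 : (((Fin.rev b : Fin n) : ℕ) + 1 : ℕ) = n + 1 - ((b : ℕ) + 1) := by
    rw [Fin.val_rev]; have := b.2; omega
  rw [h1, Nat.cast_sub (by have := b.2; omega)]
  have hN : ((n + 1 : ℕ) : ℝ) ≠ 0 := by positivity
  have h2 : Real.pi * (((n + 1 : ℕ) : ℝ) - (((b : ℕ) + 1 : ℕ) : ℝ)) * (((r : ℕ) + 1 : ℕ) : ℝ) / ((n + 1 : ℕ) : ℝ) =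
      (((r : ℕ) + 1 : ℕ) : ℝ) * Real.pi - Real.pi * (((b : ℕ) + 1 : ℕ) : ℝ) * (((r : ℕ) + 1 : ℕ) : ℝ) / ((n + 1 : ℕ) : ℝ) := by
    field_simp
  rw [h2, Real.sin_sub, Real.sin_nat_mul_pi, Real.cos_nat_mul_pi]
  ring

lemma sum_x_sign (n : ℕ) (a b : Fin n) : ∑ r : Fin n, (-1 : ℝ) ^ ((r : ℕ) + 1) * (sn n a r * sn n b r) =
    - if a = Fin.rev b then ((n + 1 : ℕ) : ℝ) / 2 else 0 := by
  rw [← sum_x, ← Finset.sum_neg_distrib]
  apply Finset.sum_congr rfl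
  intro r _
  have := sn_rev n b r
  calc (-1 : ℝ) ^ ((r : ℕ) + 1) * (sn n a r * sn n b r) = sn n a r * ((-1 : ℝ) ^ ((r : ℕ) + 1) * sn n b r) := by ring
    _ = _ := by rw [this]; ring

lemma sum_x_sq (n : ℕ) (a b : Fin n) : ∑ r, (sn n a r * sn n b r) * (sn n a r * sn n b r) =
    (1 / 4) * (((n + 1 : ℕ) : ℝ) + ((n + 1 : ℕ) : ℝ) / 2 * ((if a = b then 1 else 0) + (if a = Fin.rev b then 1 else 0))) := by
  have h1 : ∀ r : Fin n, (sn n a r * sn n b r) * (sn n a r * sn n b r) = (1 / 4) *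
      (1 - Real.cos (Real.pi * (2 * ((a : ℕ) : ℤ) + 2 : ℤ) * (((r : ℕ) + 1 : ℕ) : ℝ) / ((n + 1 : ℕ) : ℝ))
       - Real.cos (Real.pi * (2 * ((b : ℕ) : ℤ) + 2 : ℤ) * (((r : ℕ) + 1 : ℕ) : ℝ) / ((n + 1 : ℕ) : ℝ))
       + (1 / 2) * (Real.cos (Real.pi * (2 * ((a : ℕ) : ℤ) - 2 * ((b : ℕ) : ℤ) : ℤ) * (((r : ℕ) + 1 : ℕ) : ℝ) / ((n + 1 : ℕ) : ℝ))
       + Real.cos (Real.pi * (2 * ((a : ℕ) : ℤ) + 2 * ((b : ℕ) : ℤ) + 4 : ℤ) * (((r : ℕ) + 1 : ℕ) : ℝ) / ((n + 1 : ℕ) : ℝ)))) := by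
    intro r
    unfold sn
    set X := Real.pi * (((a : ℕ) + 1 : ℕ) : ℝ) * (((r : ℕ) + 1 : ℕ) : ℝ) / ((n + 1 : ℕ) : ℝ) with hX
    set Y := Real.pi * (((b : ℕ) + 1 : ℕ) : ℝ) * (((r : ℕ) + 1 : ℕ) : ℝ) / ((n + 1 : ℕ) : ℝ) with hY
    have e1 : Real.pi * (2 * ((a : ℕ) : ℤ) + 2 : ℤ) * (((r : ℕ) + 1 : ℕ) : ℝ) / ((n + 1 : ℕ) : ℝ) = 2 * X := by
      rw [hX]; push_cast; ring
    have e2 : Real.pi * (2 * ((b : ℕ) : ℤ) + 2 : ℤ) * (((r : ℕ) + 1 : ℕ) : ℝ) / ((n + 1 : ℕ) : ℝ) = 2 * Y := by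
      rw [hY]; push_cast; ring
    have e3 : Real.pi * (2 * ((a : ℕ) : ℤ) - 2 * ((b : ℕ) : ℤ) : ℤ) * (((r : ℕ) + 1 : ℕ) : ℝ) / ((n + 1 : ℕ) : ℝ) = 2 * X - 2 * Y := by
      rw [hX, hY]; push_cast; ring
    have e4 : Real.pi * (2 * ((a : ℕ) : ℤ) + 2 * ((b : ℕ) : ℤ) + 4 : ℤ) * (((r : ℕ) + 1 : ℕ) : ℝ) / ((n + 1 : ℕ) : ℝ) = 2 * X + 2 * Y := by
      rw [hX, hY]; push_cast; ring
    rw [e1, e2, e3, e4, Real.cos_sub, Real.cos_add, Real.cos_two_mul, Real.cos_two_mul]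
    have s1 : Real.sin X * Real.sin X = 1 - Real.cos X ^ 2 := by
      have := Real.sin_sq_add_cos_sq X; nlinarith
    have s2 : Real.sin Y * Real.sin Y = 1 - Real.cos Y ^ 2 := by
      have := Real.sin_sq_add_cos_sq Y; nlinarith
    calc Real.sin X * Real.sin Y * (Real.sin X * Real.sin Y) = (Real.sin X * Real.sin X) * (Real.sin Y * Real.sin Y) := by ring
      _ = _ := by rw [s1, s2]; ring
  rw [Finset.sum_congr rfl (fun r _ => h1 r), ← Finset.mul_sum, Finset.sum_add_distrib,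
    Finset.sum_sub_distrib, Finset.sum_sub_distrib, ← Finset.mul_sum, Finset.sum_add_distrib,
    sum_fin_eq_T, sum_fin_eq_T, sum_fin_eq_T, sum_fin_eq_T,
    T_eq _ (by omega), T_eq _ (by omega), T_eq _ (by omega), T_eq _ (by omega)]
  have ha := a.2
  have hb := b.2
  have q1 : ¬ (2 * ((n + 1 : ℕ) : ℤ) ∣ 2 * ((a : ℕ) : ℤ) + 2) := by
    rw [dvd_iff_zero _ _ (by omega) (by omega)]; omega
  have q2 : ¬ (2 * ((n + 1 : ℕ) : ℤ) ∣ 2 * ((b : ℕ) : ℤ) + 2) := by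
    rw [dvd_iff_zero _ _ (by omega) (by omega)]; omega
  have q3 : (2 * ((n + 1 : ℕ) : ℤ) ∣ 2 * ((a : ℕ) : ℤ) - 2 * ((b : ℕ) : ℤ)) ↔ a = b := by
    rw [dvd_iff_zero _ _ (by omega) (by omega), Fin.ext_iff]; omega
  have q4 : (2 * ((n + 1 : ℕ) : ℤ) ∣ 2 * ((a : ℕ) : ℤ) + 2 * ((b : ℕ) : ℤ) + 4) ↔ a = Fin.rev b := by
    rw [dvd_iff_eq _ _ (by omega) (by omega), Fin.ext_iff, Fin.val_rev]; omega
  have p1 : Even (2 * ((a : ℕ) : ℤ) + 2) := ⟨(a : ℕ) + 1, by ring⟩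
  have p2 : Even (2 * ((b : ℕ) : ℤ) + 2) := ⟨(b : ℕ) + 1, by ring⟩
  have p3 : Even (2 * ((a : ℕ) : ℤ) - 2 * ((b : ℕ) : ℤ)) := ⟨(a : ℕ) - (b : ℕ), by ring⟩
  have p4 : Even (2 * ((a : ℕ) : ℤ) + 2 * ((b : ℕ) : ℤ) + 4) := ⟨(a : ℕ) + (b : ℕ) + 2, by ring⟩
  simp only [q1, q2, q3, q4, p1, p2, p3, p4, if_true, if_false, Finset.sum_const, Finset.card_univ,
    Fintype.card_fin, nsmul_eq_mul, mul_one]
  push_cast
  split_ifs <;> ring

lemma suff (n : ℕ) (hn : 1 ≤ n) (g : ℝ → ℝ) (hg0 : g 0 = 1)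
    (h : ∀ p q, 1 ≤ p → p ≤ n → 1 ≤ q → q ≤ n → p ≠ q → g (th n p - th n q) = val n p q)
    (a b : Fin n) : MM n g a b = 1 / n := by
  have hn0 : (n : ℝ) ≠ 0 := by positivity
  have hN : ((n : ℝ) + 1) ≠ 0 := by positivity
  have h1 : ∀ r s : Fin n, g (theta n r - theta n s) =
      (1 + 1 / (n : ℝ)) * (if r = s then 1 else 0) -
        (1 / (2 * (n : ℝ))) * (1 + (-1 : ℝ) ^ ((r : ℕ) + 1) * (-1 : ℝ) ^ ((s : ℕ) + 1)) := by
    intro r s
    by_cases hrs : r = s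
    · subst hrs
      rw [if_pos rfl, sub_self, hg0]
      have : (-1 : ℝ) ^ ((r : ℕ) + 1) * (-1 : ℝ) ^ ((r : ℕ) + 1) = 1 := by
        rw [← pow_add]
        exact Even.neg_one_pow ⟨_, rfl⟩
      rw [this]
      field_simp
      ring
    · rw [if_neg hrs, theta_eq, theta_eq, h _ _ (by omega) r.2 (by omega) s.2
        (by intro h'; apply hrs; apply Fin.ext; omega)]
      unfold val
      rw [← pow_add]
      split_ifs with hp
      · have : Even ((r : ℕ) + 1 + ((s : ℕ) + 1)) := by rw [Nat.even_iff]; omega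
        rw [this.neg_one_pow]
        field_simp
        ring
      · have : Odd ((r : ℕ) + 1 + ((s : ℕ) + 1)) := by rw [Nat.odd_iff]; omega
        rw [this.neg_one_pow]
        ring
  unfold MM
  have h2 : ∑ r, ∑ s, g (theta n r - theta n s) * ((sn n a r * sn n b r) * (sn n a s * sn n b s)) =
      (1 + 1 / (n : ℝ)) * (∑ r, (sn n a r * sn n b r) * (sn n a r * sn n b r)) -
      (1 / (2 * (n : ℝ))) * ((∑ r, sn n a r * sn n b r) * (∑ r, sn n a r * sn n b r) +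
        (∑ r : Fin n, (-1 : ℝ) ^ ((r : ℕ) + 1) * (sn n a r * sn n b r)) * (∑ r : Fin n, (-1 : ℝ) ^ ((r : ℕ) + 1) * (sn n a r * sn n b r))) := by
    rw [Finset.sum_mul_sum, Finset.sum_mul_sum, ← Finset.sum_add_distrib, Finset.mul_sum, Finset.mul_sum,
      ← Finset.sum_sub_distrib]
    apply Finset.sum_congr rfl
    intro r _
    rw [← Finset.sum_add_distrib, Finset.mul_sum]
    have : (1 + 1 / (n : ℝ)) * ((sn n a r * sn n b r) * (sn n a r * sn n b r)) =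
      ∑ s, (1 + 1 / (n : ℝ)) * ((if r = s then 1 else 0) * ((sn n a r * sn n b r) * (sn n a s * sn n b s))) := by
      rw [← Finset.mul_sum]
      simp
    rw [this, ← Finset.sum_sub_distrib]
    apply Finset.sum_congr rfl
    intro s _
    rw [h1]
    ring
  rw [h2, sum_x, sum_x_sign, sum_x_sq]
  push_cast
  split_ifs <;> field_simp <;> ring

end PathMix
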