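import Pool.Agent.PathMix.Basic
set_option autoImplicit false
open Matrix Finset MeasureTheory

namespace PathMix

/-- cosine moment -/
noncomputable def mom (f : ℝ → ℝ) (x : ℝ) : ℝ := ∫ s, f s * Real.cos (s * x)

lemma integrable_mul_cos (f : ℝ → ℝ) (hf : Integrable f) (x : ℝ) :
    Integrable (fun s => f s * Real.cos (s * x)) := by
  refine hf.mul_bdd (c := 1) ?_ ?_
  · exact (Real.continuous_cos.comp (continuous_id.mul continuous_const)).aestronglyMeasurable
  · refine Filter.Eventually.of_forall (fun s => ?_)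
    rw [Real.norm_eq_abs]
    exact Real.abs_cos_le_one _

lemma Mavg_eq (n : ℕ) (f : ℝ → ℝ) (hf : Integrable f) (a b : Fin n) :
    Mavg n f a b = MM n (mom f) a b := by
  unfold Mavg
  simp_rw [M_eq]
  unfold MM mom
  have h1 : ∀ s : ℝ, f s * ((4 / ((n + 1 : ℕ) : ℝ) ^ 2) * ∑ r, ∑ s', Real.cos (s * (theta n r - theta n s')) *
      ((sn n a r * sn n b r) * (sn n a s' * sn n b s'))) =
      ∑ r, ∑ s', (f s * Real.cos (s * (theta n r - theta n s'))) *
        ((4 / ((n + 1 : ℕ) : ℝ) ^ 2) * ((sn n a r * sn n b r) * (sn n a s' * sn n b s'))) := by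
    intro s
    rw [Finset.mul_sum, Finset.mul_sum]
    apply Finset.sum_congr rfl
    intro r _
    rw [Finset.mul_sum, Finset.mul_sum]
    apply Finset.sum_congr rfl
    intro s' _
    ring
  simp_rw [h1]
  rw [integral_finsetSum]
  · rw [Finset.mul_sum]
    apply Finset.sum_congr rfl
    intro r _
    rw [integral_finsetSum]
    · rw [Finset.mul_sum]
      apply Finset.sum_congr rfl
      intro s' _
      rw [integral_mul_const]
      ring
    · intro s' _
      exact (integrable_mul_cos f hf _).mul_const _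
  · intro r _
    apply integrable_finsetSum
    intro s' _
    exact (integrable_mul_cos f hf _).mul_const _

lemma mom_neg (f : ℝ → ℝ) (x : ℝ) : mom f (-x) = mom f x := by
  unfold mom
  congr 1
  ext s
  rw [mul_neg, Real.cos_neg]

lemma mom_zero (f : ℝ → ℝ) (hf : IsDensity f) : mom f 0 = 1 := by
  unfold mom
  simp [hf.2.2]

lemma rank_one_iff (n : ℕ) (hn : 1 ≤ n) (A : Matrix (Fin n) (Fin n) ℝ) (hrow : ∀ a, ∑ b, A a b = 1)
    (hsymm : ∀ a b, A a b = A b a) : A.rank = 1 ↔ ∀ a b, A a b = 1 / n := by
  have hn0 : (n : ℝ) ≠ 0 := by positivity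
  constructor
  · intro h
    have h1 : Module.finrank ℝ (LinearMap.range A.mulVecLin) = 1 := h
    have hones : (fun _ => (1 : ℝ)) ∈ LinearMap.range A.mulVecLin := by
      refine ⟨fun _ => 1, ?_⟩
      ext a
      simp only [Matrix.mulVecLin_apply, Matrix.mulVec, dotProduct, mul_one]
      exact hrow a
    have hne : (⟨fun _ => (1 : ℝ), hones⟩ : LinearMap.range A.mulVecLin) ≠ 0 := by
      intro h0
      have := congrArg Subtype.val h0
      have := congrFun this ⟨0, by omega⟩
      simp at this
    have hspan := (finrank_eq_one_iff_of_nonzero' _ hne).mp h1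
    have hcol : ∀ b, ∃ c : ℝ, ∀ a, A a b = c := by
      intro b
      have hmem : (fun a => A a b) ∈ LinearMap.range A.mulVecLin := by
        refine ⟨Pi.single b 1, ?_⟩
        rw [Matrix.mulVecLin_apply, Matrix.mulVec_single_one]
        rfl
      obtain ⟨c, hc⟩ := hspan ⟨_, hmem⟩
      refine ⟨c, fun a => ?_⟩
      have := congrFun (congrArg Subtype.val hc) a
      simp at this
      exact this.symm
    intro a b
    obtain ⟨c, hc⟩ := hcol b
    have hs : ∑ a, A a b = 1 := by
      simp_rw [hsymm _ b]
      exact hrow b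
    simp_rw [hc] at hs
    rw [hc a]
    simp at hs
    field_simp
    linarith
  · intro h
    apply le_antisymm
    · have : A = Matrix.vecMulVec (fun _ => (1 / n : ℝ)) (fun _ => (1 : ℝ)) := by
        ext a b
        rw [h, Matrix.vecMulVec_apply]
        ring
      rw [this]
      exact Matrix.rank_vecMulVec_le _ _
    · rw [Nat.one_le_iff_ne_zero]
      intro h0
      have hfin : Module.finrank ℝ (LinearMap.range A.mulVecLin) = 0 := h0
      rw [Submodule.finrank_eq_zero, LinearMap.range_eq_bot] at hfin
      have hones : A.mulVecLin (fun _ => (1 : ℝ)) = fun _ => 1 := by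
        ext a
        simp only [Matrix.mulVecLin_apply, Matrix.mulVec, dotProduct, mul_one]
        exact hrow a
      rw [hfin] at hones
      have := congrFun hones ⟨0, by omega⟩
      simp at this

lemma criterion (n : ℕ) (hn : 1 ≤ n) (f : ℝ → ℝ) (hf : IsDensity f) :
    (Mavg n f).rank = 1 ↔ ∀ p q, 1 ≤ p → p ≤ n → 1 ≤ q → q ≤ n → p ≠ q →
      mom f (th n p - th n q) = val n p q := by
  have hM : Mavg n f = MM n (mom f) := by
    ext a b
    exact Mavg_eq n f hf.1 a b
  rw [hM, rank_one_iff n hn _ (MM_row n _ (mom_zero f hf)) (MM_symm n _)]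
  constructor
  · intro h p q hp hp' hq hq' hpq
    exact nec n (mom f) (mom_neg f) h p q hp hp' hq hq' hpq
  · intro h a b
    exact suff n hn (mom f) (mom_zero f hf) h a b

end PathMix
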