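import Mathlib

/-! Continuous-time quantum walk on the path and its mixing matrix, averaged over a random time. -/

open MeasureTheory

namespace PathMix

/-- The adjacency matrix of the path `P_n` (Mathlib's `SimpleGraph.pathGraph n`, vertex set
`Fin n`, edges between consecutive elements), with complex entries. -/
noncomputable def adj (n : ℕ) : Matrix (Fin n) (Fin n) ℂ :=
  haveI : DecidableRel (SimpleGraph.pathGraph n).Adj := Classical.decRel _
  (SimpleGraph.pathGraph n).adjMatrix ℂ

/-- The continuous-time quantum walk `U(t) = exp(i t A)` on `P_n`. -/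
noncomputable def U (n : ℕ) (t : ℝ) : Matrix (Fin n) (Fin n) ℂ :=
  NormedSpace.exp ((Complex.I * (t : ℂ)) • adj n)

/-- The mixing matrix `M(t)`, with entries `|U(t)_{ab}|^2`. -/
noncomputable def M (n : ℕ) (t : ℝ) : Matrix (Fin n) (Fin n) ℝ := fun a b => ‖U n t a b‖ ^ 2

/-- `f` is a probability density on `ℝ` with respect to Lebesgue measure: (a.e. strongly)
measurable and integrable, nonnegative, with integral one. -/
def IsDensity (f : ℝ → ℝ) : Prop := Integrable f ∧ (∀ x, 0 ≤ f x) ∧ ∫ x, f x = 1

/-- The averaged mixing matrix `E[M(R)] = ∫ f(s) M(s) ds` of `P_n` for a random time `R` with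
density `f`. -/
noncomputable def Mavg (n : ℕ) (f : ℝ → ℝ) : Matrix (Fin n) (Fin n) ℝ :=
  fun a b => ∫ s, f s * M n s a b

end PathMix
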