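import Pool.Agent.PathMix.Interior
set_option autoImplicit false
open Matrix Finset MeasureTheory

namespace PathMix

noncomputable def cnt (K : ℕ) (a : ℤ) : ℝ := ∑ p : Fin K × Fin K, if ((p.1 : ℕ) : ℤ) - ((p.2 : ℕ) : ℤ) + a = 0 then (1 : ℝ) else 0

lemma cnt_eq (K : ℕ) (a : ℤ) (hK : a.natAbs ≤ K) : cnt K a = K - a.natAbs := by
  unfold cnt
  rw [Fintype.sum_prod_type]
  have h1 : ∀ j : Fin K, (∑ l : Fin K, if ((j : ℕ) : ℤ) - ((l : ℕ) : ℤ) + a = 0 then (1 : ℝ) else 0) =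
      if (0 ≤ ((j : ℕ) : ℤ) + a ∧ ((j : ℕ) : ℤ) + a < K) then 1 else 0 := by
    intro j
    by_cases h : (0 ≤ ((j : ℕ) : ℤ) + a ∧ ((j : ℕ) : ℤ) + a < K)
    · rw [if_pos h, Finset.sum_eq_single (⟨(((j : ℕ) : ℤ) + a).toNat, by omega⟩ : Fin K)]
      · rw [if_pos]
        simp only
        omega
      · intro l _ hl
        rw [if_neg]
        intro h'
        apply hl
        apply Fin.ext
        simp only
        omega
      · simp
    · rw [if_neg h, Finset.sum_eq_zero]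
      intro l _
      rw [if_neg]
      intro h'
      apply h
      have := l.2
      omega
  simp_rw [h1]
  rw [Fin.sum_univ_eq_sum_range (fun j => if (0 ≤ (j : ℤ) + a ∧ (j : ℤ) + a < K) then (1 : ℝ) else 0) K,
    ← Finset.sum_filter, Finset.sum_const, nsmul_eq_mul, mul_one]
  have h2 : (((Finset.range K).filter (fun j : ℕ => 0 ≤ (j : ℤ) + a ∧ (j : ℤ) + a < K)).card : ℝ) = ((K - a.natAbs : ℕ) : ℝ) := by
    congr 1
    rcases le_total 0 a with ha | ha
    · have : (Finset.range K).filter (fun j : ℕ => 0 ≤ (j : ℤ) + a ∧ (j : ℤ) + a < K) = Finset.range (K - a.natAbs) := by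
        ext j
        simp only [Finset.mem_filter, Finset.mem_range]
        omega
      rw [this, Finset.card_range]
    · have : (Finset.range K).filter (fun j : ℕ => 0 ≤ (j : ℤ) + a ∧ (j : ℤ) + a < K) = Finset.Ico a.natAbs K := by
        ext j
        simp only [Finset.mem_filter, Finset.mem_range, Finset.mem_Ico]
        omega
      rw [this, Nat.card_Ico]
  rw [h2, Nat.cast_sub hK]

lemma cnt_tendsto (a : ℤ) : Filter.Tendsto (fun K : ℕ => cnt (K + 1) a / ((K + 1 : ℕ) : ℝ)) Filter.atTop (nhds 1) := by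
  have h1 : Filter.Tendsto (fun K : ℕ => 1 - (a.natAbs : ℝ) * (1 / ((K : ℝ) + 1))) Filter.atTop (nhds 1) := by
    have := (tendsto_one_div_add_atTop_nhds_zero_nat (𝕜 := ℝ)).const_mul (a.natAbs : ℝ)
    simpa using this.const_sub 1
  refine h1.congr' ?_
  filter_upwards [Filter.eventually_ge_atTop a.natAbs] with K hK
  rw [cnt_eq _ _ (by omega)]
  have : ((K + 1 : ℕ) : ℝ) ≠ 0 := by positivity
  push_cast at this ⊢
  field_simp

section
variable {m : ℕ} (b x : Fin m → ℝ)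

/-- product of Fejér kernels -/
noncomputable def GK (K : ℕ) (t : ℝ) : ℝ :=
  ∏ r, ((1 / (K : ℝ)) * ‖∑ j : Fin K, Complex.exp (Complex.I * (((j : ℕ) : ℝ) * (t * b r - x r) : ℝ))‖ ^ 2)

noncomputable def cJ (K : ℕ) (J : Fin m → Fin K × Fin K) : ℂ :=
  ∏ r, ((1 / (K : ℂ)) * Complex.exp (-(Complex.I * ((((J r).1 : ℕ) : ℝ) - (((J r).2 : ℕ) : ℝ) : ℝ) * (x r : ℝ))))

noncomputable def nuJ (K : ℕ) (J : Fin m → Fin K × Fin K) : ℝ :=
  ∑ r, ((((J r).1 : ℕ) : ℝ) - (((J r).2 : ℕ) : ℝ)) * b r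

lemma GK_nonneg (K : ℕ) (t : ℝ) : 0 ≤ GK b x K t := by
  unfold GK
  apply Finset.prod_nonneg
  intro r _
  positivity

lemma GK_eq (K : ℕ) (t : ℝ) : (GK b x K t : ℂ) = ∑ J, cJ x K J * Complex.exp (Complex.I * (t * nuJ b K J : ℝ)) := by
  have h1 : ∀ r : Fin m, (((1 / (K : ℝ)) * ‖∑ j : Fin K, Complex.exp (Complex.I * (((j : ℕ) : ℝ) * (t * b r - x r) : ℝ))‖ ^ 2 : ℝ) : ℂ) =
      ∑ p : Fin K × Fin K, (1 / (K : ℂ)) * Complex.exp (-(Complex.I * (((p.1 : ℕ) : ℝ) - ((p.2 : ℕ) : ℝ) : ℝ) * (x r : ℝ))) *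
        Complex.exp (Complex.I * (t * (((((p.1 : ℕ) : ℝ) - ((p.2 : ℕ) : ℝ))) * b r) : ℝ)) := by
    intro r
    rw [Complex.ofReal_mul, Complex.ofReal_pow, ← Complex.mul_conj', map_sum, Finset.sum_mul_sum,
      Fintype.sum_prod_type, Finset.mul_sum]
    apply Finset.sum_congr rfl
    intro j _
    rw [Finset.mul_sum]
    apply Finset.sum_congr rfl
    intro l _
    rw [← Complex.exp_conj, ← Complex.exp_add, mul_assoc, ← Complex.exp_add]
    push_cast
    congr 2
    rw [map_mul, Complex.conj_I]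
    simp only [map_mul, map_sub, Complex.conj_ofReal, map_natCast]
    ring
  unfold GK
  rw [Complex.ofReal_prod, Finset.prod_congr rfl (fun r _ => h1 r), Finset.prod_univ_sum, Fintype.piFinset_univ]
  apply Finset.sum_congr rfl
  intro J _
  rw [Finset.prod_mul_distrib]
  unfold cJ nuJ
  congr 1
  rw [← Complex.exp_sum]
  congr 1
  rw [← Finset.mul_sum]
  congr 1
  push_cast
  rw [Finset.mul_sum]

lemma GK_coeff (hind : ∀ a : Fin m → ℤ, ∑ r, (a r : ℝ) * b r = 0 → a = 0) (K : ℕ) (a : Fin m → ℤ) :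
    (∑ J, if nuJ b K J + ∑ r, (a r : ℝ) * b r = 0 then cJ x K J else 0) =
      ((∏ r, (cnt K (a r) / (K : ℝ)) : ℝ) : ℂ) * Complex.exp (Complex.I * ((∑ r, (a r : ℝ) * x r : ℝ) : ℂ)) := by
  have h1 : ∀ J : Fin m → Fin K × Fin K, (if nuJ b K J + ∑ r, (a r : ℝ) * b r = 0 then cJ x K J else 0) =
      ∏ r, (if (((J r).1 : ℕ) : ℤ) - (((J r).2 : ℕ) : ℤ) + a r = 0 then
        (1 / (K : ℂ)) * Complex.exp (Complex.I * ((a r : ℝ) * x r : ℝ)) else 0) := by
    intro J
    have h2 : nuJ b K J + ∑ r, (a r : ℝ) * b r = 0 ↔ ∀ r, (((J r).1 : ℕ) : ℤ) - (((J r).2 : ℕ) : ℤ) + a r = 0 := by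
      have h3 : nuJ b K J + ∑ r, (a r : ℝ) * b r = ∑ r, (((((J r).1 : ℕ) : ℤ) - (((J r).2 : ℕ) : ℤ) + a r : ℤ) : ℝ) * b r := by
        unfold nuJ
        rw [← Finset.sum_add_distrib]
        apply Finset.sum_congr rfl
        intro r _
        push_cast
        ring
      rw [h3]
      constructor
      · intro h r
        exact congrFun (hind _ h) r
      · intro h
        apply Finset.sum_eq_zero
        intro r _
        rw [h r]
        simp
    by_cases hJ : ∀ r, (((J r).1 : ℕ) : ℤ) - (((J r).2 : ℕ) : ℤ) + a r = 0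
    · rw [if_pos (h2.mpr hJ)]
      unfold cJ
      apply Finset.prod_congr rfl
      intro r _
      rw [if_pos (hJ r)]
      congr 2
      have h4 : ((((J r).1 : ℕ) : ℝ) - (((J r).2 : ℕ) : ℝ) : ℝ) = -(a r : ℝ) := by
        have := hJ r
        have h5 : ((((((J r).1 : ℕ) : ℤ) - (((J r).2 : ℕ) : ℤ) + a r : ℤ)) : ℝ) = 0 := by rw [this]; simp
        push_cast at h5
        linarith
      rw [h4]
      push_cast
      ring
    · rw [if_neg (fun h => hJ (h2.mp h))]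
      push Not at hJ
      obtain ⟨r, hr⟩ := hJ
      symm
      apply Finset.prod_eq_zero (Finset.mem_univ r)
      rw [if_neg hr]
  simp_rw [h1]
  have h2 := Finset.prod_univ_sum (fun _ : Fin m => (Finset.univ : Finset (Fin K × Fin K)))
    (fun r p => if (((p.1 : ℕ)) : ℤ) - (((p.2 : ℕ)) : ℤ) + a r = 0 then
        (1 / (K : ℂ)) * Complex.exp (Complex.I * ((a r : ℝ) * x r : ℝ)) else 0)
  rw [Fintype.piFinset_univ] at h2
  rw [← h2]
  have h3 : ∀ r : Fin m, (∑ p : Fin K × Fin K, if (((p.1 : ℕ)) : ℤ) - (((p.2 : ℕ)) : ℤ) + a r = 0 then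
        (1 / (K : ℂ)) * Complex.exp (Complex.I * ((a r : ℝ) * x r : ℝ)) else 0) =
        ((cnt K (a r) / (K : ℝ) : ℝ) : ℂ) * Complex.exp (Complex.I * ((a r : ℝ) * x r : ℝ)) := by
    intro r
    have : ∀ p : Fin K × Fin K, (if (((p.1 : ℕ)) : ℤ) - (((p.2 : ℕ)) : ℤ) + a r = 0 then
        (1 / (K : ℂ)) * Complex.exp (Complex.I * ((a r : ℝ) * x r : ℝ)) else 0) =
        ((if (((p.1 : ℕ)) : ℤ) - (((p.2 : ℕ)) : ℤ) + a r = 0 then (1 : ℝ) else 0 : ℝ) : ℂ) *
        ((1 / (K : ℂ)) * Complex.exp (Complex.I * ((a r : ℝ) * x r : ℝ))) := by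
      intro p
      split_ifs <;> simp
    rw [Finset.sum_congr rfl (fun p _ => this p), ← Finset.sum_mul, ← Complex.ofReal_sum]
    unfold cnt
    push_cast
    ring
  rw [Finset.prod_congr rfl (fun r _ => h3 r), Finset.prod_mul_distrib, ← Complex.exp_sum, Complex.ofReal_prod]
  congr 2
  rw [← Finset.mul_sum]
  push_cast
  rfl

lemma GK_continuous (K : ℕ) : Continuous (GK b x K) := by
  unfold GK
  fun_prop

lemma GK_bdd (K : ℕ) : ∃ C : ℝ, ∀ t, ‖GK b x K t‖ ≤ C := by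
  refine ⟨∑ J, ‖cJ x K J‖, fun t => ?_⟩
  have h1 : ‖GK b x K t‖ = ‖(GK b x K t : ℂ)‖ := by simp
  rw [h1, GK_eq]
  refine (norm_sum_le _ _).trans (Finset.sum_le_sum (fun J _ => ?_))
  rw [norm_mul, mul_comm Complex.I, Complex.norm_exp_ofReal_mul_I, mul_one]

end

/-- every virtual point gives a point of the closure of the moment set -/
lemma virtual_mem_closure {m : ℕ} (b x : Fin m → ℝ)
    (hind : ∀ a : Fin m → ℤ, ∑ r, (a r : ℝ) * b r = 0 → a = 0)
    (W : Finset ℝ) (a : W → Fin m → ℤ) (ha : ∀ w : W, ∑ r, (a w r : ℝ) * b r = w) :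
    (fun w : W => Real.cos (∑ r, (a w r : ℝ) * x r)) ∈ closure (momSet W) := by
  have key : ∀ K : ℕ, (fun w : W => (∏ r, (cnt (K + 1) (a w r) / ((K + 1 : ℕ) : ℝ))) * Real.cos (∑ r, (a w r : ℝ) * x r)) ∈ momSet W := by
    intro K
    obtain ⟨h, hd, hz⟩ := kernel (((Finset.univ.image (nuJ b (K + 1))) ∪
      ((Finset.univ.image (nuJ b (K + 1))) ×ˢ W).image (fun p => p.1 + p.2)).filter (fun x => x ≠ 0))
      (fun x hx => (Finset.mem_filter.mp hx).2)
    have hbdd := GK_bdd b x (K + 1)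
    obtain ⟨C, hC⟩ := hbdd
    have hint : Integrable (fun t => h t * GK b x (K + 1) t) :=
      hd.1.mul_bdd (c := C) (GK_continuous b x (K + 1)).aestronglyMeasurable (Filter.Eventually.of_forall hC)
    have hFT : ∀ a' : Fin m → ℤ, (∀ J, nuJ b (K + 1) J + ∑ r, (a' r : ℝ) * b r ≠ 0 →
        FT h (nuJ b (K + 1) J + ∑ r, (a' r : ℝ) * b r) = 0) →
        mom (fun t => h t * GK b x (K + 1) t) (∑ r, (a' r : ℝ) * b r) =
        (∏ r, (cnt (K + 1) (a' r) / ((K + 1 : ℕ) : ℝ))) * Real.cos (∑ r, (a' r : ℝ) * x r) := by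
      intro a' ha'
      rw [mom_eq_FT _ hint, exact_FT (cJ x (K + 1)) (nuJ b (K + 1)) (GK b x (K + 1)) (GK_eq b x (K + 1)) h hd _ ha',
        GK_coeff b x hind, Complex.re_ofReal_mul, mul_comm Complex.I, Complex.exp_ofReal_mul_I_re]
    refine ⟨fun t => h t * GK b x (K + 1) t, ⟨hint, ?_, ?_⟩, ?_⟩
    · intro t
      exact mul_nonneg (hd.2.1 t) (GK_nonneg b x _ t)
    · have h0 := hFT 0 (by
        intro J hJ
        apply hz
        rw [Finset.mem_filter]
        refine ⟨?_, hJ⟩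
        simp)
      have h1 : mom (fun t => h t * GK b x (K + 1) t) (∑ r, (((0 : Fin m → ℤ) r : ℤ) : ℝ) * b r) =
          ∫ t, h t * GK b x (K + 1) t := by
        unfold mom
        simp
      rw [h1] at h0
      rw [h0]
      have h2 : ∀ r : Fin m, cnt (K + 1) ((0 : Fin m → ℤ) r) / ((K + 1 : ℕ) : ℝ) = 1 := by
        intro r
        rw [cnt_eq _ _ (by simp)]
        have : ((K + 1 : ℕ) : ℝ) ≠ 0 := by positivity
        simp only [Pi.zero_apply, Int.natAbs_zero, Nat.cast_zero, sub_zero]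
        exact div_self this
      rw [Finset.prod_congr rfl (fun r _ => h2 r)]
      simp
    · intro w
      have h0 := hFT (a w) (by
        intro J hJ
        apply hz
        rw [Finset.mem_filter]
        refine ⟨?_, hJ⟩
        rw [Finset.mem_union]
        right
        rw [Finset.mem_image]
        refine ⟨(nuJ b (K + 1) J, w), ?_, ?_⟩
        · simp
        · simp only
          rw [ha w])
      rw [ha w] at h0
      exact h0
  refine mem_closure_of_tendsto (f := fun K : ℕ => (fun w : W => (∏ r, (cnt (K + 1) (a w r) / ((K + 1 : ℕ) : ℝ))) * Real.cos (∑ r, (a w r : ℝ) * x r)))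
    (b := Filter.atTop) ?_ (Filter.Eventually.of_forall key)
  rw [tendsto_pi_nhds]
  intro w
  have h1 : Filter.Tendsto (fun K : ℕ => ∏ r, (cnt (K + 1) (a w r) / ((K + 1 : ℕ) : ℝ))) Filter.atTop (nhds (∏ _r : Fin m, (1 : ℝ))) :=
    tendsto_finsetProd _ (fun r _ => cnt_tendsto (a w r))
  rw [Finset.prod_const_one] at h1
  simpa using h1.mul_const (Real.cos (∑ r, (a w r : ℝ) * x r))

end PathMix
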