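import Pool.Agent.PathMix.Yes
set_option autoImplicit false
open Matrix Finset MeasureTheory

namespace PathMix

section indep
open Polynomial

lemma low_degree_zero (N : ℕ) (hN : 0 < N) (ζ : ℂ) (hζ : IsPrimitiveRoot ζ N) (Q : ℤ[X])
    (hQ : aeval ζ Q = 0) (hdeg : Q.degree < (Nat.totient N : ℕ)) : Q = 0 := by
  by_contra hne
  have h1 : cyclotomic N ℤ ∣ Q := by
    rw [cyclotomic_eq_minpoly hζ hN]
    exact minpoly.isIntegrallyClosed_dvd (hζ.isIntegral hN) hQ
  have h2 := Polynomial.degree_le_of_dvd h1 hne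
  rw [degree_cyclotomic] at h2
  exact absurd hdeg (not_lt.mpr h2)

/-- the polynomial of an integer relation between the `θ_r` -/
noncomputable def PP (m : ℕ) (a : Fin m → ℤ) : ℤ[X] :=
  ∑ r : Fin m, C (a r) * (X ^ (m + ((r : ℕ) + 1)) + X ^ (m - ((r : ℕ) + 1)))

lemma PP_coeff (m : ℕ) (a : Fin m → ℤ) (k : ℕ) : (PP m a).coeff k =
    ∑ r : Fin m, a r * ((if k = m + ((r : ℕ) + 1) then 1 else 0) + (if k = m - ((r : ℕ) + 1) then 1 else 0)) := by
  unfold PP
  rw [finsetSum_coeff]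
  apply Finset.sum_congr rfl
  intro r _
  rw [coeff_C_mul, coeff_add, coeff_X_pow, coeff_X_pow]

lemma PP_coeff_mid (m : ℕ) (a : Fin m → ℤ) : (PP m a).coeff m = 0 := by
  rw [PP_coeff]
  apply Finset.sum_eq_zero
  intro r _
  have := r.2
  rw [if_neg (by omega), if_neg (by omega)]
  ring

lemma PP_coeff_high (m : ℕ) (a : Fin m → ℤ) (k : ℕ) (hk : 2 * m < k) : (PP m a).coeff k = 0 := by
  rw [PP_coeff]
  apply Finset.sum_eq_zero
  intro r _
  have := r.2
  rw [if_neg (by omega), if_neg (by omega)]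
  ring

lemma PP_eq_zero (m : ℕ) (a : Fin m → ℤ) (h : PP m a = 0) : a = 0 := by
  ext r
  have h1 : (PP m a).coeff (m + ((r : ℕ) + 1)) = 0 := by rw [h]; simp
  rw [PP_coeff, Finset.sum_eq_single r] at h1
  · have := r.2
    rw [if_pos rfl, if_neg (by omega)] at h1
    simpa using h1
  · intro s _ hs
    have h2 : (s : ℕ) ≠ r := fun h => hs (Fin.ext h)
    have := r.2
    have := s.2
    rw [if_neg (by omega), if_neg (by omega)]
    ring
  · simp

lemma PP_root (n : ℕ) (a : Fin (n / 2) → ℤ) (h : ∑ r, (a r : ℝ) * th n ((r : ℕ) + 1) = 0) :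
    aeval (Complex.exp (2 * Real.pi * Complex.I / ((2 * (n + 1) : ℕ) : ℂ))) (PP (n / 2) a) = 0 := by
  set ζ := Complex.exp (2 * Real.pi * Complex.I / ((2 * (n + 1) : ℕ) : ℂ)) with hζ
  have hζ0 : ζ ≠ 0 := Complex.exp_ne_zero _
  have hth : ∀ k : ℕ, ((th n k : ℝ) : ℂ) = ζ ^ k + (ζ ^ k)⁻¹ := by
    intro k
    unfold th
    have h1 : ζ ^ k = Complex.exp (((Real.pi * (k : ℝ) / ((n : ℝ) + 1) : ℝ) : ℂ) * Complex.I) := by
      rw [hζ, ← Complex.exp_nat_mul]
      congr 1
      push_cast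
      have : ((n : ℂ) + 1) ≠ 0 := by exact_mod_cast Nat.succ_ne_zero n
      field_simp
    rw [h1, ← Complex.exp_neg]
    push_cast
    rw [Complex.cos]
    ring_nf
  have h1 : aeval ζ (PP (n / 2) a) = ζ ^ (n / 2) * ((∑ r : Fin (n / 2), (a r : ℝ) * th n ((r : ℕ) + 1) : ℝ) : ℂ) := by
    unfold PP
    rw [map_sum]
    push_cast
    rw [Finset.mul_sum]
    apply Finset.sum_congr rfl
    intro r _
    rw [hth]
    have h2 : ζ ^ (n / 2 - ((r : ℕ) + 1)) = ζ ^ (n / 2) * (ζ ^ ((r : ℕ) + 1))⁻¹ := by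
      rw [eq_mul_inv_iff_mul_eq₀ (pow_ne_zero _ hζ0), ← pow_add]
      congr 1
      have := r.2
      omega
    rw [map_mul, map_add, map_pow, map_pow, aeval_X, aeval_C, h2, pow_add]
    simp only [algebraMap_int_eq, eq_intCast]
    ring
  rw [h1, h]
  simp

lemma zeta_prim (n : ℕ) : IsPrimitiveRoot (Complex.exp (2 * Real.pi * Complex.I / ((2 * (n + 1) : ℕ) : ℂ))) (2 * (n + 1)) :=
  Complex.isPrimitiveRoot_exp _ (by omega)

/-- independence for `n + 1 = 2^k` -/
lemma ind_two_pow (n k : ℕ) (hn : 1 ≤ n) (hk : n + 1 = 2 ^ k) (a : Fin (n / 2) → ℤ)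
    (h : ∑ r, (a r : ℝ) * th n ((r : ℕ) + 1) = 0) : a = 0 := by
  apply PP_eq_zero
  apply low_degree_zero (2 * (n + 1)) (by omega) _ (zeta_prim n) _ (PP_root n a h)
  have h1 : Nat.totient (2 * (n + 1)) = n + 1 := by
    rw [hk, ← pow_succ', Nat.totient_prime_pow_succ Nat.prime_two]
    simp
  rw [h1, degree_lt_iff_coeff_zero]
  intro j hj
  apply PP_coeff_high
  omega

/-- the auxiliary polynomial -/
noncomputable def RR (s p : ℕ) : ℤ[X] := ∑ i ∈ Finset.range p, C ((-1) ^ i) * X ^ (s * i)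

lemma RR_coeff (s p : ℕ) (hs : 0 < s) (i : ℕ) (hi : i < p) : (RR s p).coeff (s * i) = (-1) ^ i := by
  unfold RR
  rw [finsetSum_coeff, Finset.sum_eq_single i]
  · rw [coeff_C_mul, coeff_X_pow, if_pos rfl, mul_one]
  · intro j _ hj
    rw [coeff_C_mul, coeff_X_pow, if_neg, mul_zero]
    intro h'
    exact hj (Nat.eq_of_mul_eq_mul_left hs h').symm
  · intro h'
    exact absurd (Finset.mem_range.mpr hi) h'

lemma RR_coeff_high (s p k : ℕ) (hk : s * (p - 1) < k) : (RR s p).coeff k = 0 := by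
  unfold RR
  rw [finsetSum_coeff]
  apply Finset.sum_eq_zero
  intro i hi
  rw [Finset.mem_range] at hi
  rw [coeff_C_mul, coeff_X_pow, if_neg, mul_zero]
  intro h'
  have : s * i ≤ s * (p - 1) := Nat.mul_le_mul_left s (by omega)
  omega

lemma RR_root (s p : ℕ) (ζ : ℂ) (hp : Odd p) (h1 : ζ ^ (s * p) = -1) (h2 : -ζ ^ s ≠ 1) :
    aeval ζ (RR s p) = 0 := by
  unfold RR
  rw [map_sum]
  have h3 : ∀ i ∈ Finset.range p, aeval ζ (C ((-1) ^ i) * X ^ (s * i) : ℤ[X]) = (-ζ ^ s) ^ i := by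
    intro i _
    simp only [map_mul, map_pow, aeval_X, map_neg, map_one]
    rw [pow_mul, ← mul_pow]
    congr 1
    ring
  rw [Finset.sum_congr rfl h3]
  have h4 := geom_sum_mul (-ζ ^ s) p
  have h5 : (-ζ ^ s) ^ p = 1 := by
    rw [hp.neg_pow, ← pow_mul, h1]
    ring
  rw [h5, sub_self] at h4
  rcases mul_eq_zero.mp h4 with h | h
  · exact h
  · exact absurd (sub_eq_zero.mp h) h2

lemma ind_sp (n s p : ℕ) (hs : 0 < s) (hp : p.Prime) (hp3 : 3 ≤ p) (hN : n + 1 = s * p)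
    (hm : n / 2 = s * ((p - 1) / 2)) (htot : Nat.totient (2 * (n + 1)) = s * (p - 1)) (a : Fin (n / 2) → ℤ)
    (h : ∑ r, (a r : ℝ) * th n ((r : ℕ) + 1) = 0) : a = 0 := by
  have hodd : Odd p := hp.odd_of_ne_two (by omega)
  have hpar : p % 2 = 1 := Nat.odd_iff.mp hodd
  have hprim := zeta_prim n
  set ζ := Complex.exp (2 * Real.pi * Complex.I / ((2 * (n + 1) : ℕ) : ℂ)) with hζ
  have hζN : ζ ^ (n + 1) = -1 := by
    have h1 : ζ ^ (n + 1) * ζ ^ (n + 1) = 1 := by
      rw [← pow_add, ← two_mul]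
      exact hprim.pow_eq_one
    have h2 : ζ ^ (n + 1) ≠ 1 := hprim.pow_ne_one_of_pos_of_lt (by omega) (by omega)
    rcases mul_self_eq_one_iff.mp h1 with h | h
    · exact absurd h h2
    · exact h
  have hR : aeval ζ (RR s p) = 0 := by
    apply RR_root s p ζ hodd
    · rw [← hN]; exact hζN
    · intro hc
      have h1 : ζ ^ (2 * s) = 1 := by
        rw [mul_comm, pow_mul]
        have : ζ ^ s = -1 := by rw [← hc]; ring
        rw [this]; norm_num
      have h2 := hprim.pow_ne_one_of_pos_of_lt (l := 2 * s) (by omega)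
        (by rw [hN]; nlinarith)
      exact h2 h1
  have hmid : s * (p - 1) = 2 * (n / 2) := by
    rw [hm]
    have : p - 1 = 2 * ((p - 1) / 2) := by omega
    calc s * (p - 1) = s * (2 * ((p - 1) / 2)) := by rw [← this]
      _ = 2 * (s * ((p - 1) / 2)) := by ring
  set c := (PP (n / 2) a).coeff (s * (p - 1)) with hc
  have hQ : PP (n / 2) a - C c * RR s p = 0 := by
    apply low_degree_zero (2 * (n + 1)) (by omega) ζ hprim
    · rw [map_sub, map_mul, hR, PP_root n a h]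
      simp
    · rw [htot, degree_lt_iff_coeff_zero]
      intro j hj
      rw [coeff_sub, coeff_C_mul]
      rcases eq_or_lt_of_le hj with h' | h'
      · rw [← h', RR_coeff s p hs (p - 1) (by omega), ← hc]
        have : Even (p - 1) := by rw [Nat.even_iff]; omega
        rw [this.neg_one_pow]
        ring
      · rw [RR_coeff_high s p j h', PP_coeff_high _ _ _ (by omega)]
        ring
  have h1 : (PP (n / 2) a - C c * RR s p).coeff (n / 2) = 0 := by rw [hQ]; simp
  rw [coeff_sub, coeff_C_mul, PP_coeff_mid, hm, RR_coeff s p hs _ (by omega)] at h1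
  have h2 : c = 0 := by
    rcases neg_one_pow_eq_or ℤ ((p - 1) / 2) with h | h <;> rw [h] at h1 <;> linarith
  rw [h2] at hQ
  apply PP_eq_zero
  simpa using hQ

lemma ind_prime (n : ℕ) (hn : 2 ≤ n) (hp : (n + 1).Prime) (a : Fin (n / 2) → ℤ)
    (h : ∑ r, (a r : ℝ) * th n ((r : ℕ) + 1) = 0) : a = 0 := by
  have hodd : Odd (n + 1) := hp.odd_of_ne_two (by omega)
  apply ind_sp n 1 (n + 1) one_pos hp (by omega) (by ring)
  · rw [Nat.odd_iff] at hodd; omega
  · rw [Nat.totient_mul_of_prime_of_not_dvd Nat.prime_two]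
    · rw [Nat.totient_prime hp]
    · rw [Nat.odd_iff] at hodd; omega
  · exact h

lemma ind_two_prime (n p : ℕ) (hp : p.Prime) (hp3 : 3 ≤ p) (hN : n + 1 = 2 * p) (a : Fin (n / 2) → ℤ)
    (h : ∑ r, (a r : ℝ) * th n ((r : ℕ) + 1) = 0) : a = 0 := by
  have hodd : Odd p := hp.odd_of_ne_two (by omega)
  have hpar : p % 2 = 1 := Nat.odd_iff.mp hodd
  apply ind_sp n 2 p two_pos hp hp3 hN
  · omega
  · rw [hN, ← mul_assoc, Nat.totient_mul]
    · rw [Nat.totient_prime hp]
      have : Nat.totient (2 * 2) = 2 := by decide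
      rw [this]
    · rw [Nat.coprime_mul_iff_left]
      have : Nat.Coprime 2 p := by
        rw [Nat.coprime_two_left]; exact hodd
      exact ⟨this, this⟩
  · exact h

end indep

end PathMix
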