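import Pool.Agent.PathMix.Kernel
set_option autoImplicit false
open Matrix Finset MeasureTheory

namespace PathMix

/-- set of vectors of cosine moments of densities, for the frequencies in `W` -/
def momSet (W : Finset ℝ) : Set (W → ℝ) := {v | ∃ f, IsDensity f ∧ ∀ w : W, mom f w = v w}

lemma momSet_convex (W : Finset ℝ) : Convex ℝ (momSet W) := by
  rintro v ⟨f, hf, hfv⟩ v' ⟨f', hf', hfv'⟩ a b ha hb hab
  refine ⟨fun t => a * f t + b * f' t, ⟨?_, ?_, ?_⟩, ?_⟩
  · exact (hf.1.const_mul a).add (hf'.1.const_mul b)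
  · intro x
    have := hf.2.1 x
    have := hf'.2.1 x
    positivity
  · rw [integral_add (hf.1.const_mul a) (hf'.1.const_mul b), integral_const_mul, integral_const_mul,
      hf.2.2, hf'.2.2]
    linarith
  · intro w
    rw [Pi.add_apply, Pi.smul_apply, Pi.smul_apply, ← hfv w, ← hfv' w]
    unfold mom
    rw [smul_eq_mul, smul_eq_mul, ← integral_const_mul, ← integral_const_mul, ← integral_add]
    · congr 1
      ext s
      ring
    · exact (integrable_mul_cos f hf.1 _).const_mul _
    · exact (integrable_mul_cos f' hf'.1 _).const_mul _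

lemma mom_pert (W : Finset ℝ) (h : ℝ → ℝ) (hd : IsDensity h) (v : W → ℝ) (x : ℝ) :
    Integrable (fun t => h t * (1 + ∑ w : W, 2 * v w * Real.cos (t * w))) ∧
    mom (fun t => h t * (1 + ∑ w : W, 2 * v w * Real.cos (t * w))) x =
      mom h x + ∑ w : W, v w * (mom h (w - x) + mom h (w + x)) := by
  constructor
  · have : (fun t => h t * (1 + ∑ w : W, 2 * v w * Real.cos (t * w))) =
        fun t => h t + ∑ w : W, 2 * v w * (h t * Real.cos (t * w)) := by
      ext t
      rw [mul_add, mul_one, Finset.mul_sum]
      congr 1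
      apply Finset.sum_congr rfl
      intro w _
      ring
    rw [this]
    refine hd.1.add (integrable_finsetSum _ ?_)
    intro w _
    exact (integrable_mul_cos h hd.1 _).const_mul _
  · unfold mom
    have h1 : ∀ t : ℝ, h t * (1 + ∑ w : W, 2 * v w * Real.cos (t * w)) * Real.cos (t * x) =
        h t * Real.cos (t * x) + ∑ w : W, v w * (h t * Real.cos (t * (w - x)) + h t * Real.cos (t * (w + x))) := by
      intro t
      rw [mul_add, mul_one, add_mul, Finset.mul_sum, Finset.sum_mul]
      congr 1
      apply Finset.sum_congr rfl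
      intro w _
      rw [mul_sub, mul_add t, Real.cos_sub, Real.cos_add]
      ring
    simp_rw [h1]
    have hi : ∀ w : W, Integrable (fun t => h t * Real.cos (t * (w - x)) + h t * Real.cos (t * (w + x))) :=
      fun w => (integrable_mul_cos h hd.1 _).add (integrable_mul_cos h hd.1 _)
    rw [integral_add (integrable_mul_cos h hd.1 _) (integrable_finsetSum _ (fun w _ => (hi w).const_mul _)),
      integral_finsetSum _ (fun w _ => (hi w).const_mul _)]
    congr 1
    apply Finset.sum_congr rfl
    intro w _
    rw [integral_const_mul, integral_add (integrable_mul_cos h hd.1 _) (integrable_mul_cos h hd.1 _)]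

lemma zero_mem_interior (W : Finset ℝ) (hW : ∀ w ∈ W, 0 < w) : (0 : W → ℝ) ∈ interior (momSet W) := by
  obtain ⟨h, hd, hz⟩ := kernel ((W ∪ ((W ×ˢ W).image (fun p => p.1 - p.2)) ∪ ((W ×ˢ W).image (fun p => p.1 + p.2))).filter (fun x => x ≠ 0))
    (fun x hx => (Finset.mem_filter.mp hx).2)
  have hm : ∀ x ∈ (W ∪ ((W ×ˢ W).image (fun p => p.1 - p.2)) ∪ ((W ×ˢ W).image (fun p => p.1 + p.2))),
      x ≠ 0 → mom h x = 0 := by
    intro x hx hx0
    rw [mom_eq_FT h hd.1, hz x (Finset.mem_filter.mpr ⟨hx, hx0⟩)]
    simp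
  rw [mem_interior_iff_mem_nhds, Metric.mem_nhds_iff]
  refine ⟨1 / (2 * ((W.card : ℝ) + 1)), by positivity, ?_⟩
  intro v hv
  rw [mem_ball_zero_iff] at hv
  have hsum : ∀ t : ℝ, 0 ≤ 1 + ∑ w : W, 2 * v w * Real.cos (t * w) := by
    intro t
    have h1 : ∀ w : W, -(1 / ((W.card : ℝ) + 1)) ≤ 2 * v w * Real.cos (t * w) := by
      intro w
      have h2 : |2 * v w * Real.cos (t * w)| ≤ 1 / ((W.card : ℝ) + 1) := by
        rw [abs_mul, abs_mul]
        have h3 : |v w| ≤ 1 / (2 * ((W.card : ℝ) + 1)) := by
          rw [← Real.norm_eq_abs]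
          exact (norm_le_pi_norm v w).trans hv.le
        have h4 := Real.abs_cos_le_one (t * w)
        have h5 : |(2 : ℝ)| = 2 := abs_of_pos two_pos
        rw [h5]
        calc 2 * |v w| * |Real.cos (t * w)| ≤ 2 * (1 / (2 * ((W.card : ℝ) + 1))) * 1 := by
              apply mul_le_mul _ h4 (abs_nonneg _) (by positivity)
              linarith
          _ = 1 / ((W.card : ℝ) + 1) := by field_simp
      exact (abs_le.mp h2).1
    have h2 : ∑ w : W, -(1 / ((W.card : ℝ) + 1)) ≤ ∑ w : W, 2 * v w * Real.cos (t * w) :=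
      Finset.sum_le_sum (fun w _ => h1 w)
    rw [Finset.sum_const, Finset.card_univ, Fintype.card_coe, nsmul_eq_mul] at h2
    have h3 : (W.card : ℝ) * -(1 / ((W.card : ℝ) + 1)) ≥ -1 := by
      have : (0 : ℝ) < (W.card : ℝ) + 1 := by positivity
      rw [mul_neg, ge_iff_le, neg_le_neg_iff, mul_one_div, div_le_one this]
      linarith
    linarith
  have hmom := fun x => (mom_pert W h hd v x).2
  refine ⟨fun t => h t * (1 + ∑ w : W, 2 * v w * Real.cos (t * w)), ⟨(mom_pert W h hd v 0).1, ?_, ?_⟩, ?_⟩
  · intro t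
    exact mul_nonneg (hd.2.1 t) (hsum t)
  · have h0 := hmom 0
    have : mom (fun t => h t * (1 + ∑ w : W, 2 * v w * Real.cos (t * w))) 0 =
        ∫ t, h t * (1 + ∑ w : W, 2 * v w * Real.cos (t * w)) := by
      unfold mom
      simp
    rw [this] at h0
    rw [h0, mom_zero h hd, Finset.sum_eq_zero]
    · ring
    · intro w _
      have hw := hW w w.2
      have h1 : mom h (w : ℝ) = 0 := hm _ (by simp) hw.ne'
      rw [sub_zero, add_zero, h1]
      ring
  · intro x
    rw [hmom, hm x (by simp) (hW x x.2).ne', zero_add, Finset.sum_eq_single x]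
    · have h1 : mom h ((x : ℝ) + x) = 0 := by
        apply hm
        · rw [Finset.mem_union]
          right
          rw [Finset.mem_image]
          exact ⟨(x, x), by simp, rfl⟩
        · have := hW x x.2
          linarith
      rw [sub_self, mom_zero h hd, h1]
      ring
    · intro w _ hwx
      have hwx' : (w : ℝ) ≠ x := fun h => hwx (Subtype.ext h)
      have h1 : mom h ((w : ℝ) + x) = 0 := by
        apply hm
        · rw [Finset.mem_union]
          right
          rw [Finset.mem_image]
          exact ⟨(w, x), by simp, rfl⟩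
        · have := hW x x.2
          have := hW w w.2
          linarith
      have h2 : mom h ((w : ℝ) - x) = 0 := by
        apply hm
        · rw [Finset.mem_union, Finset.mem_union]
          left; right
          rw [Finset.mem_image]
          exact ⟨(w, x), by simp, rfl⟩
        · exact sub_ne_zero.mpr hwx'
      rw [h1, h2]
      ring
    · simp

lemma interior_lemma (W : Finset ℝ) (hW : ∀ w ∈ W, 0 < w) (y : W → ℝ) (c : ℝ) (hc : 1 < c)
    (hy : c • y ∈ closure (momSet W)) : y ∈ momSet W := by
  have h0 := zero_mem_interior W hW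
  have hc0 : 0 < c := by linarith
  have h1 : (1 - 1 / c) • (0 : W → ℝ) + (1 / c) • (c • y) ∈ interior (momSet W) := by
    apply (momSet_convex W).combo_interior_closure_mem_interior h0 hy
    · rw [sub_pos, div_lt_one hc0]
      exact hc
    · positivity
    · ring
  rw [smul_zero, zero_add, smul_smul, one_div, inv_mul_cancel₀ hc0.ne', one_smul] at h1
  exact interior_subset h1

end PathMix
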