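import Pool.Agent.PathMix.No
set_option autoImplicit false
open Matrix Finset MeasureTheory

namespace PathMix

/-- Fourier transform of a function -/
noncomputable def FT (f : ℝ → ℝ) (x : ℝ) : ℂ := ∫ s, (f s : ℂ) * Complex.exp (Complex.I * (s * x : ℝ))

lemma integrable_FT (f : ℝ → ℝ) (hf : Integrable f) (x : ℝ) :
    Integrable (fun s => (f s : ℂ) * Complex.exp (Complex.I * (s * x : ℝ))) := by
  refine (hf.ofReal (𝕜 := ℂ)).mul_bdd (c := 1) ?_ ?_
  · apply Continuous.aestronglyMeasurable
    fun_prop
  · refine Filter.Eventually.of_forall (fun s => ?_)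
    rw [mul_comm, Complex.norm_exp_ofReal_mul_I]

lemma mom_eq_FT (f : ℝ → ℝ) (hf : Integrable f) (x : ℝ) : mom f x = (FT f x).re := by
  unfold mom FT
  have h := integral_re (integrable_FT f hf x)
  simp only [RCLike.re_eq_complex_re] at h
  rw [← h]
  congr 1
  ext s
  rw [Complex.re_ofReal_mul, mul_comm Complex.I, Complex.exp_ofReal_mul_I_re]

lemma FT_zero (f : ℝ → ℝ) (hf : IsDensity f) : FT f 0 = 1 := by
  unfold FT
  simp only [mul_zero, Complex.ofReal_zero, Complex.exp_zero, mul_one]
  rw [integral_complex_ofReal, hf.2.2]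
  simp

lemma FT_shift (f : ℝ → ℝ) (c x : ℝ) :
    FT (fun s => f (s + c)) x = Complex.exp (-(Complex.I * (c * x : ℝ))) * FT f x := by
  unfold FT
  rw [← integral_const_mul]
  rw [← integral_add_right_eq_self (fun s => Complex.exp (-(Complex.I * (c * x : ℝ))) *
    ((f s : ℂ) * Complex.exp (Complex.I * (s * x : ℝ)))) c]
  congr 1
  ext s
  have : Complex.exp (Complex.I * (s * x : ℝ)) = Complex.exp (-(Complex.I * (c * x : ℝ))) *
      Complex.exp (Complex.I * ((s + c) * x : ℝ)) := by
    rw [← Complex.exp_add]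
    congr 1
    push_cast
    ring
  rw [this]
  ring

/-- a density whose Fourier transform vanishes on a given finite set of nonzero frequencies -/
lemma kernel (Ω : Finset ℝ) (h0 : ∀ x ∈ Ω, x ≠ 0) : ∃ h : ℝ → ℝ, IsDensity h ∧ ∀ x ∈ Ω, FT h x = 0 := by
  induction Ω using Finset.induction_on with
  | empty =>
    refine ⟨Set.indicator (Set.Icc 0 1) (fun _ => 1), ⟨?_, ?_, ?_⟩, by simp⟩
    · rw [integrable_indicator_iff measurableSet_Icc]
      simp
    · intro x
      apply Set.indicator_nonneg
      intro _ _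
      norm_num
    · rw [integral_indicator measurableSet_Icc]
      simp
  | insert a s ha ih =>
    obtain ⟨h, hd, hz⟩ := ih (fun x hx => h0 x (Finset.mem_insert_of_mem hx))
    have ha0 : a ≠ 0 := h0 a (Finset.mem_insert_self _ _)
    have hint : Integrable (fun t => h (t + Real.pi / a)) := hd.1.comp_add_right _
    have hFT : ∀ x, FT (fun t => (1 / 2 : ℝ) * (h t + h (t + Real.pi / a))) x =
        (1 / 2 : ℂ) * ((1 + Complex.exp (-(Complex.I * (Real.pi / a * x : ℝ)))) * FT h x) := by
      intro x
      have h1 := FT_shift h (Real.pi / a) x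
      rw [add_mul, one_mul, ← h1]
      unfold FT
      rw [← integral_add (integrable_FT h hd.1 x) (integrable_FT _ hint x), ← integral_const_mul]
      congr 1
      ext s
      push_cast
      ring
    refine ⟨fun t => (1 / 2 : ℝ) * (h t + h (t + Real.pi / a)), ⟨?_, ?_, ?_⟩, ?_⟩
    · exact (hd.1.add hint).const_mul _
    · intro x
      have := hd.2.1 x
      have := hd.2.1 (x + Real.pi / a)
      positivity
    · rw [integral_const_mul, integral_add hd.1 hint, hd.2.2,
        integral_add_right_eq_self (fun t => h t) (Real.pi / a), hd.2.2]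
      norm_num
    · intro x hx
      rw [hFT]
      rcases Finset.mem_insert.mp hx with rfl | hx
      · have : Real.pi / x * x = Real.pi := by field_simp
        rw [this, Complex.exp_neg, mul_comm Complex.I, Complex.exp_pi_mul_I]
        norm_num
      · rw [hz x hx]
        ring

/-- main exactness lemma -/
lemma exact_FT {J : Type*} [Fintype J] (c : J → ℂ) (ν : J → ℝ) (G : ℝ → ℝ)
    (hG : ∀ t, (G t : ℂ) = ∑ j, c j * Complex.exp (Complex.I * (t * ν j : ℝ)))
    (h : ℝ → ℝ) (hd : IsDensity h) (x : ℝ) (hz : ∀ j, ν j + x ≠ 0 → FT h (ν j + x) = 0) :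
    FT (fun t => h t * G t) x = ∑ j, if ν j + x = 0 then c j else 0 := by
  have h1 : ∀ t : ℝ, ((h t * G t : ℝ) : ℂ) * Complex.exp (Complex.I * (t * x : ℝ)) =
      ∑ j, c j * ((h t : ℂ) * Complex.exp (Complex.I * (t * (ν j + x) : ℝ))) := by
    intro t
    rw [Complex.ofReal_mul, hG, Finset.mul_sum, Finset.sum_mul]
    apply Finset.sum_congr rfl
    intro j _
    have : Complex.exp (Complex.I * (t * (ν j + x) : ℝ)) =
        Complex.exp (Complex.I * (t * ν j : ℝ)) * Complex.exp (Complex.I * (t * x : ℝ)) := by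
      rw [← Complex.exp_add]
      congr 1
      push_cast
      ring
    rw [this]
    ring
  unfold FT
  simp_rw [h1]
  rw [integral_finsetSum]
  · apply Finset.sum_congr rfl
    intro j _
    rw [integral_const_mul]
    have : ∫ t, (h t : ℂ) * Complex.exp (Complex.I * (t * (ν j + x) : ℝ)) = FT h (ν j + x) := rfl
    rw [this]
    split_ifs with h0
    · rw [h0, FT_zero h hd, mul_one]
    · rw [hz j h0, mul_zero]
  · intro j _
    exact (integrable_FT h hd.1 _).const_mul _

end PathMix
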