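import Pool.Agent.PathMix.Crit
set_option autoImplicit false
open Matrix Finset MeasureTheory

namespace PathMix

lemma conflict (n : ℕ) (hn : 1 ≤ n) (g : ℝ → ℝ)
    (h : ∀ p q, 1 ≤ p → p ≤ n → 1 ≤ q → q ≤ n → p ≠ q → g (th n p - th n q) = val n p q)
    (p q p' q' : ℕ) (hp : 1 ≤ p) (hp1 : p ≤ n) (hq : 1 ≤ q) (hq1 : q ≤ n) (hpq : p ≠ q)
    (hp' : 1 ≤ p') (hp1' : p' ≤ n) (hq' : 1 ≤ q') (hq1' : q' ≤ n) (hpq' : p' ≠ q')
    (hpar : p % 2 = q % 2) (hpar' : p' % 2 ≠ q' % 2) (heq : th n p - th n q = th n p' - th n q') : False := by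
  have h1 := h p q hp hp1 hq hq1 hpq
  have h2 := h p' q' hp' hp1' hq' hq1' hpq'
  rw [heq, h2] at h1
  unfold val at h1
  rw [if_pos hpar, if_neg hpar'] at h1
  have : (0 : ℝ) < 1 / n := by positivity
  linarith

lemma no6 (n : ℕ) (h6 : 6 ∣ n + 1) (h12 : 12 ≤ n + 1) (g : ℝ → ℝ)
    (h : ∀ p q, 1 ≤ p → p ≤ n → 1 ≤ q → q ≤ n → p ≠ q → g (th n p - th n q) = val n p q) : False := by
  obtain ⟨k, hk⟩ := h6
  have hk2 : 2 ≤ k := by omega
  -- `r = 1` or `2` of parity different from `k`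
  obtain ⟨r, hr1, hr2, hr3⟩ : ∃ r : ℕ, 1 ≤ r ∧ r < 2 * k ∧ r % 2 ≠ k % 2 := by
    rcases Nat.even_or_odd k with he | ho
    · refine ⟨1, le_refl _, by omega, ?_⟩
      rw [Nat.even_iff] at he; omega
    · refine ⟨2, by omega, ?_, ?_⟩
      · rw [Nat.odd_iff] at ho; omega
      · rw [Nat.odd_iff] at ho; omega
  refine conflict n (by omega) g h r (2 * k - r) (2 * k + r) (3 * k) hr1 (by omega) (by omega) (by omega)
    (by omega) (by omega) (by omega) (by omega) (by omega) (by omega) (by omega) (by omega) ?_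
  unfold th
  have hN : ((n : ℝ) + 1) = 6 * k := by exact_mod_cast hk
  have hk0 : (k : ℝ) ≠ 0 := by positivity
  have e1 : Real.pi * ((2 * k - r : ℕ) : ℝ) / ((n : ℝ) + 1) = Real.pi / 3 - Real.pi * (r : ℝ) / ((n : ℝ) + 1) := by
    rw [hN, Nat.cast_sub (by omega)]; push_cast; field_simp; ring
  have e2 : Real.pi * ((2 * k + r : ℕ) : ℝ) / ((n : ℝ) + 1) = Real.pi / 3 + Real.pi * (r : ℝ) / ((n : ℝ) + 1) := by
    rw [hN]; push_cast; field_simp; ring
  have e3 : Real.pi * ((3 * k : ℕ) : ℝ) / ((n : ℝ) + 1) = Real.pi / 2 := by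
    rw [hN]; push_cast; field_simp; ring
  rw [e1, e2, e3, Real.cos_sub, Real.cos_add, Real.cos_pi_div_two, Real.cos_pi_div_three]
  ring

lemma cos_five : Real.cos (Real.pi / 5) - Real.cos (2 * Real.pi / 5) = 1 / 2 := by
  have h : Real.cos (2 * Real.pi / 5) = 2 * Real.cos (Real.pi / 5) ^ 2 - 1 := by
    rw [← Real.cos_two_mul]; congr 1; ring
  rw [h, Real.cos_pi_div_five]
  have : Real.sqrt 5 ^ 2 = 5 := Real.sq_sqrt (by norm_num)
  ring_nf
  rw [this]
  ring

lemma cos_fifteen : Real.cos (Real.pi / 5) - Real.cos (Real.pi / 15) = 1 / 2 - Real.cos (4 * Real.pi / 15) := by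
  have h1 : Real.cos (Real.pi / 15) - Real.cos (4 * Real.pi / 15) = Real.cos (2 * Real.pi / 5) := by
    rw [Real.cos_sub_cos]
    have e1 : (Real.pi / 15 + 4 * Real.pi / 15) / 2 = Real.pi / 6 := by ring
    have e2 : (Real.pi / 15 - 4 * Real.pi / 15) / 2 = -(Real.pi / 2 - 2 * Real.pi / 5) := by ring
    rw [e1, e2, Real.sin_neg, Real.sin_pi_div_two_sub, Real.sin_pi_div_six]
    ring
  have h2 := cos_five
  linarith

lemma cos_seven : Real.cos (Real.pi / 7) - Real.cos (2 * Real.pi / 7) = 1 / 2 - Real.cos (3 * Real.pi / 7) := by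
  have hs : Real.sin (Real.pi / 7) ≠ 0 := by
    apply ne_of_gt
    apply Real.sin_pos_of_pos_of_lt_pi
    · positivity
    · have := Real.pi_pos; linarith
  have h1 : 2 * Real.sin (Real.pi / 7) * Real.cos (Real.pi / 7) = Real.sin (2 * Real.pi / 7) := by
    rw [← Real.sin_two_mul]; congr 1; ring
  have h2 : 2 * Real.sin (Real.pi / 7) * Real.cos (2 * Real.pi / 7) = Real.sin (3 * Real.pi / 7) - Real.sin (Real.pi / 7) := by
    rw [Real.sin_sub_sin]
    have e1 : (3 * Real.pi / 7 - Real.pi / 7) / 2 = Real.pi / 7 := by ring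
    have e2 : (3 * Real.pi / 7 + Real.pi / 7) / 2 = 2 * Real.pi / 7 := by ring
    rw [e1, e2]
  have h3 : 2 * Real.sin (Real.pi / 7) * Real.cos (3 * Real.pi / 7) = Real.sin (4 * Real.pi / 7) - Real.sin (2 * Real.pi / 7) := by
    rw [Real.sin_sub_sin]
    have e1 : (4 * Real.pi / 7 - 2 * Real.pi / 7) / 2 = Real.pi / 7 := by ring
    have e2 : (4 * Real.pi / 7 + 2 * Real.pi / 7) / 2 = 3 * Real.pi / 7 := by ring
    rw [e1, e2]
  have h4 : Real.sin (4 * Real.pi / 7) = Real.sin (3 * Real.pi / 7) := by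
    rw [← Real.sin_pi_sub]; congr 1; ring
  have h5 : Real.sin (Real.pi / 7) * (2 * (Real.cos (Real.pi / 7) - Real.cos (2 * Real.pi / 7) + Real.cos (3 * Real.pi / 7)) - 1) = 0 := by
    rw [h4] at h3
    linarith
  rcases mul_eq_zero.mp h5 with h | h
  · exact absurd h hs
  · linarith

lemma no15 (n : ℕ) (h15 : 15 ∣ n + 1) (g : ℝ → ℝ)
    (h : ∀ p q, 1 ≤ p → p ≤ n → 1 ≤ q → q ≤ n → p ≠ q → g (th n p - th n q) = val n p q) : False := by
  obtain ⟨k, hk⟩ := h15
  rcases Nat.even_or_odd k with he | ho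
  · rw [Nat.even_iff] at he
    exact no6 n (by omega) (by omega) g h
  rw [Nat.odd_iff] at ho
  refine conflict n (by omega) g h (3 * k) k (5 * k) (4 * k) (by omega) (by omega) (by omega) (by omega)
    (by omega) (by omega) (by omega) (by omega) (by omega) (by omega) (by omega) (by omega) ?_
  unfold th
  have hN : ((n : ℝ) + 1) = 15 * k := by exact_mod_cast hk
  have hk1 : 1 ≤ k := by omega
  have hk0 : (k : ℝ) ≠ 0 := by positivity
  have e1 : Real.pi * ((3 * k : ℕ) : ℝ) / ((n : ℝ) + 1) = Real.pi / 5 := by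
    rw [hN]; push_cast; field_simp; ring
  have e2 : Real.pi * ((k : ℕ) : ℝ) / ((n : ℝ) + 1) = Real.pi / 15 := by
    rw [hN]; field_simp
  have e3 : Real.pi * ((5 * k : ℕ) : ℝ) / ((n : ℝ) + 1) = Real.pi / 3 := by
    rw [hN]; push_cast; field_simp; ring
  have e4 : Real.pi * ((4 * k : ℕ) : ℝ) / ((n : ℝ) + 1) = 4 * Real.pi / 15 := by
    rw [hN]; push_cast; field_simp
  have := cos_fifteen
  rw [e1, e2, e3, e4, Real.cos_pi_div_three]
  linarith

lemma no21 (n : ℕ) (h21 : 21 ∣ n + 1) (g : ℝ → ℝ)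
    (h : ∀ p q, 1 ≤ p → p ≤ n → 1 ≤ q → q ≤ n → p ≠ q → g (th n p - th n q) = val n p q) : False := by
  obtain ⟨k, hk⟩ := h21
  rcases Nat.even_or_odd k with he | ho
  · rw [Nat.even_iff] at he
    exact no6 n (by omega) (by omega) g h
  rw [Nat.odd_iff] at ho
  refine conflict n (by omega) g h (7 * k) (9 * k) (3 * k) (6 * k) (by omega) (by omega) (by omega) (by omega)
    (by omega) (by omega) (by omega) (by omega) (by omega) (by omega) (by omega) (by omega) ?_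
  unfold th
  have hN : ((n : ℝ) + 1) = 21 * k := by exact_mod_cast hk
  have hk1 : 1 ≤ k := by omega
  have hk0 : (k : ℝ) ≠ 0 := by positivity
  have e1 : Real.pi * ((3 * k : ℕ) : ℝ) / ((n : ℝ) + 1) = Real.pi / 7 := by
    rw [hN]; push_cast; field_simp; ring
  have e2 : Real.pi * ((6 * k : ℕ) : ℝ) / ((n : ℝ) + 1) = 2 * Real.pi / 7 := by
    rw [hN]; push_cast; field_simp; ring
  have e3 : Real.pi * ((7 * k : ℕ) : ℝ) / ((n : ℝ) + 1) = Real.pi / 3 := by
    rw [hN]; push_cast; field_simp; ring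
  have e4 : Real.pi * ((9 * k : ℕ) : ℝ) / ((n : ℝ) + 1) = 3 * Real.pi / 7 := by
    rw [hN]; push_cast; field_simp; ring
  have := cos_seven
  rw [e1, e2, e3, e4, Real.cos_pi_div_three]
  linarith

end PathMix
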