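import Pool.Agent.PathMix.Fejer
set_option autoImplicit false
open Matrix Finset MeasureTheory

namespace PathMix

/-- coordinates of `θ_p` in terms of the positive eigenvalues `θ_1, …, θ_{⌊n/2⌋}` -/
def vec (n p : ℕ) (r : Fin (n / 2)) : ℤ :=
  (if p = (r : ℕ) + 1 then 1 else 0) - (if n + 1 - p = (r : ℕ) + 1 then 1 else 0)

lemma vec_sum (n p : ℕ) (hp : 1 ≤ p) (hp' : p ≤ n) (z : ℕ → ℝ)
    (hz : ∀ p, 1 ≤ p → p ≤ n → z (n + 1 - p) = - z p) :
    ∑ r : Fin (n / 2), (vec n p r : ℝ) * z ((r : ℕ) + 1) = z p := by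
  have h1 : ∀ r : Fin (n / 2), (vec n p r : ℝ) * z ((r : ℕ) + 1) =
      (if p = (r : ℕ) + 1 then z p else 0) - (if n + 1 - p = (r : ℕ) + 1 then z (n + 1 - p) else 0) := by
    intro r
    unfold vec
    by_cases h1 : p = (r : ℕ) + 1
    · by_cases h2 : n + 1 - p = (r : ℕ) + 1
      · rw [if_pos h1, if_pos h2, if_pos h1, if_pos h2, ← h1, hz p hp hp']
        have h3 : z (n + 1 - p) = z p := by rw [h2, h1]
        have h4 := hz p hp hp'
        rw [h3] at h4
        have : z p = 0 := by linarith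
        rw [this]; simp
      · rw [if_pos h1, if_neg h2, if_pos h1, if_neg h2, ← h1]
        simp
    · by_cases h2 : n + 1 - p = (r : ℕ) + 1
      · rw [if_neg h1, if_pos h2, if_neg h1, if_pos h2, ← h2]
        simp
      · rw [if_neg h1, if_neg h2, if_neg h1, if_neg h2]
        simp
  simp_rw [h1]
  rw [Finset.sum_sub_distrib]
  by_cases ha : p ≤ n / 2
  · rw [Finset.sum_eq_single (⟨p - 1, by omega⟩ : Fin (n / 2)), Finset.sum_eq_zero]
    · simp only
      rw [if_pos (by omega)]
      ring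
    · intro r _
      have := r.2
      rw [if_neg (by omega)]
    · intro r _ hr
      rw [if_neg]
      intro h
      apply hr
      apply Fin.ext
      simp only
      omega
    · simp
  · by_cases hb : n + 1 - p ≤ n / 2
    · rw [Finset.sum_eq_zero, Finset.sum_eq_single (⟨n + 1 - p - 1, by omega⟩ : Fin (n / 2))]
      · simp only
        rw [if_pos (by omega), hz p hp hp']
        ring
      · intro r _ hr
        rw [if_neg]
        intro h
        apply hr
        apply Fin.ext
        simp only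
        omega
      · simp
      · intro r _
        have := r.2
        rw [if_neg (by omega)]
    · rw [Finset.sum_eq_zero, Finset.sum_eq_zero]
      · have h3 : n + 1 - p = p := by omega
        have h4 := hz p hp hp'
        rw [h3] at h4
        linarith
      · intro r _
        have := r.2
        rw [if_neg (by omega)]
      · intro r _
        have := r.2
        rw [if_neg (by omega)]

lemma th_lt (n p q : ℕ) (hpq : p < q) (hq : q ≤ n + 1) : th n q < th n p := by
  unfold th
  have hN : (0 : ℝ) < (n : ℝ) + 1 := by positivity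
  have h1 : Real.cos (Real.pi * (q : ℝ) / ((n : ℝ) + 1)) < Real.cos (Real.pi * (p : ℝ) / ((n : ℝ) + 1)) := by
    apply Real.cos_lt_cos_of_nonneg_of_le_pi
    · positivity
    · rw [div_le_iff₀ hN]
      apply mul_le_mul_of_nonneg_left _ Real.pi_pos.le
      exact_mod_cast hq
    · apply div_lt_div_of_pos_right _ hN
      apply mul_lt_mul_of_pos_left _ Real.pi_pos
      exact_mod_cast hpq
  linarith

/-- the arithmetic phases -/
noncomputable def XX (n k p : ℕ) : ℝ :=
  Real.pi * (k : ℝ) * (((n + 1 : ℕ) : ℝ) - 2 * (p : ℝ)) / (2 * (((n + 1) / 2 : ℕ) : ℝ))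

lemma XX_refl (n k p : ℕ) (hp' : p ≤ n) : XX n k (n + 1 - p) = - XX n k p := by
  unfold XX
  rw [Nat.cast_sub (by omega)]
  ring

lemma XX_sub (n k p q : ℕ) : XX n k p - XX n k q = Real.pi * (((q : ℤ) - (p : ℤ) : ℤ) : ℝ) * (k : ℝ) / (((n + 1) / 2 : ℕ) : ℝ) := by
  unfold XX
  push_cast
  have : ∀ a b c : ℝ, a / (2 * c) - b / (2 * c) = ((a - b) / 2) / c := by
    intro a b c
    by_cases hc : c = 0
    · simp [hc]
    · field_simp
  rw [this]
  congr 1
  ring

theorem yes_of_ind (n : ℕ) (hn : 3 ≤ n)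
    (hind : ∀ a : Fin (n / 2) → ℤ, ∑ r, (a r : ℝ) * th n ((r : ℕ) + 1) = 0 → a = 0) :
    ∃ f, IsDensity f ∧ ∀ p q, 1 ≤ p → p ≤ n → 1 ≤ q → q ≤ n → p ≠ q →
      mom f (th n p - th n q) = val n p q := by
  classical
  set L : ℕ := (n + 1) / 2 with hL
  have hL2 : 2 ≤ L := by omega
  have hLn : L ≤ n := by omega
  -- the frequencies
  set P : Finset (ℕ × ℕ) := ((Finset.Icc 1 n) ×ˢ (Finset.Icc 1 n)).filter (fun p => p.1 < p.2) with hP
  have hPm : ∀ p q : ℕ, 1 ≤ p → p < q → q ≤ n → (p, q) ∈ P := by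
    intro p q h1 h2 h3
    rw [hP, Finset.mem_filter, Finset.mem_product, Finset.mem_Icc, Finset.mem_Icc]
    simp only
    omega
  have hPm' : ∀ x ∈ P, 1 ≤ x.1 ∧ x.1 < x.2 ∧ x.2 ≤ n := by
    intro x hx
    rw [hP, Finset.mem_filter, Finset.mem_product, Finset.mem_Icc, Finset.mem_Icc] at hx
    omega
  set W : Finset ℝ := P.image (fun x => th n x.1 - th n x.2) with hW
  have hWpos : ∀ w ∈ W, 0 < w := by
    intro w hw
    rw [hW, Finset.mem_image] at hw
    obtain ⟨x, hx, rfl⟩ := hw
    obtain ⟨h1, h2, h3⟩ := hPm' x hx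
    have := th_lt n x.1 x.2 h2 (by omega)
    linarith
  have hrep : ∀ w : W, ∃ x ∈ P, th n x.1 - th n x.2 = w := by
    rintro ⟨w, hw⟩
    have h := hw
    rw [hW, Finset.mem_image] at h
    exact h
  choose rep hrepP hrepw using hrep
  set a : W → Fin (n / 2) → ℤ := fun w r => vec n (rep w).1 r - vec n (rep w).2 r with ha
  have hlin : ∀ (z : ℕ → ℝ), (∀ p, 1 ≤ p → p ≤ n → z (n + 1 - p) = - z p) → ∀ p q : ℕ, 1 ≤ p → p ≤ n → 1 ≤ q → q ≤ n →
      ∑ r : Fin (n / 2), ((vec n p r - vec n q r : ℤ) : ℝ) * z ((r : ℕ) + 1) = z p - z q := by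
    intro z hz p q hp hp' hq hq'
    have h1 := vec_sum n p hp hp' z hz
    have h2 := vec_sum n q hq hq' z hz
    rw [← h1, ← h2, ← Finset.sum_sub_distrib]
    apply Finset.sum_congr rfl
    intro r _
    push_cast
    ring
  have hth : ∀ p, 1 ≤ p → p ≤ n → th n (n + 1 - p) = - th n p := fun p _ hp => th_refl n p (by omega)
  have hXX : ∀ k p, 1 ≤ p → p ≤ n → XX n k (n + 1 - p) = - XX n k p := fun k p _ hp => XX_refl n k p hp
  have haw : ∀ w : W, ∑ r, (a w r : ℝ) * th n ((r : ℕ) + 1) = w := by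
    intro w
    obtain ⟨h1, h2, h3⟩ := hPm' _ (hrepP w)
    rw [← hrepw w]
    exact hlin (th n) hth _ _ h1 (by omega) (by omega) h3
  have haX : ∀ (k : ℕ) (w : W), ∑ r, (a w r : ℝ) * XX n k ((r : ℕ) + 1) = Real.pi * ((((rep w).2 : ℤ) - ((rep w).1 : ℤ) : ℤ) : ℝ) * (k : ℝ) / (L : ℝ) := by
    intro k w
    obtain ⟨h1, h2, h3⟩ := hPm' _ (hrepP w)
    have := hlin (XX n k) (hXX k) (rep w).1 (rep w).2 h1 (by omega) (by omega) h3
    rw [XX_sub] at this
    exact this
  -- virtual points
  have hcl : ∀ k : ℕ, (fun w : W => Real.cos (∑ r, (a w r : ℝ) * XX n k ((r : ℕ) + 1))) ∈ closure (momSet W) := by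
    intro k
    exact virtual_mem_closure (fun r : Fin (n / 2) => th n ((r : ℕ) + 1)) (fun r : Fin (n / 2) => XX n k ((r : ℕ) + 1)) hind W a haw
  -- target
  set y : W → ℝ := fun w => val n (rep w).1 (rep w).2 with hy
  have hLr : (0 : ℝ) < ((L - 1 : ℕ) : ℝ) := by
    have : 0 < L - 1 := by omega
    exact_mod_cast this
  have hnr : (0 : ℝ) < (n : ℝ) := by positivity
  have hyc : ((n : ℝ) / ((L - 1 : ℕ) : ℝ)) • y ∈ closure (momSet W) := by
    have h1 : ((n : ℝ) / ((L - 1 : ℕ) : ℝ)) • y = ∑ k ∈ Finset.range (L - 1), (1 / ((L - 1 : ℕ) : ℝ)) •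
        (fun w : W => Real.cos (∑ r, (a w r : ℝ) * XX n (k + 1) ((r : ℕ) + 1))) := by
      ext w
      rw [Finset.sum_apply]
      simp only [Pi.smul_apply, smul_eq_mul]
      rw [← Finset.mul_sum]
      obtain ⟨g1, g2, g3⟩ := hPm' _ (hrepP w)
      have h2 : ∑ k ∈ Finset.range (L - 1), Real.cos (∑ r, (a w r : ℝ) * XX n (k + 1) ((r : ℕ) + 1)) =
          T L (((rep w).2 : ℤ) - ((rep w).1 : ℤ)) := by
        unfold T
        apply Finset.sum_congr rfl
        intro k _
        rw [haX]
      rw [h2, T_eq L (by omega), if_neg]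
      · simp only [hy, val]
        by_cases hpar : (rep w).1 % 2 = (rep w).2 % 2
        · have he : Even (((rep w).2 : ℤ) - ((rep w).1 : ℤ)) := by
            rw [Int.even_iff]; omega
          rw [if_pos hpar, if_pos he]
          field_simp
          ring
        · have he : ¬ Even (((rep w).2 : ℤ) - ((rep w).1 : ℤ)) := by
            rw [Int.even_iff]; omega
          rw [if_neg hpar, if_neg he]
          ring
      · rw [dvd_iff_zero _ _ (by omega) (by omega)]
        omega
    rw [h1]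
    apply (momSet_convex W).closure.sum_mem
    · intro k _
      positivity
    · rw [Finset.sum_const, Finset.card_range, nsmul_eq_mul]
      field_simp
    · intro k _
      exact hcl (k + 1)
  have hc : 1 < (n : ℝ) / ((L - 1 : ℕ) : ℝ) := by
    rw [one_lt_div hLr]
    have : L - 1 < n := by omega
    exact_mod_cast this
  obtain ⟨f, hf, hfw⟩ := interior_lemma W hWpos y _ hc hyc
  refine ⟨f, hf, ?_⟩
  have main : ∀ p q : ℕ, 1 ≤ p → p < q → q ≤ n → mom f (th n p - th n q) = val n p q := by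
    intro p q hp hpq hq
    have hw : th n p - th n q ∈ W := by
      rw [hW, Finset.mem_image]
      exact ⟨(p, q), hPm p q hp hpq hq, rfl⟩
    have h1 := hfw ⟨_, hw⟩
    simp only at h1
    rw [h1]
    simp only [hy]
    obtain ⟨g1, g2, g3⟩ := hPm' _ (hrepP ⟨_, hw⟩)
    have h2 := hrepw ⟨_, hw⟩
    simp only at h2
    set x := rep ⟨_, hw⟩ with hx
    -- equality of coordinate vectors
    have h3 : (fun r => (vec n x.1 r - vec n x.2 r) - (vec n p r - vec n q r)) = 0 := by
      apply hind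
      have e1 := hlin (th n) hth x.1 x.2 g1 (by omega) (by omega) g3
      have e2 := hlin (th n) hth p q hp (by omega) (by omega) hq
      have e3 : ∑ r : Fin (n / 2), (((vec n x.1 r - vec n x.2 r) - (vec n p r - vec n q r) : ℤ) : ℝ) * th n ((r : ℕ) + 1) =
          ∑ r : Fin (n / 2), ((vec n x.1 r - vec n x.2 r : ℤ) : ℝ) * th n ((r : ℕ) + 1) -
          ∑ r : Fin (n / 2), ((vec n p r - vec n q r : ℤ) : ℝ) * th n ((r : ℕ) + 1) := by
        rw [← Finset.sum_sub_distrib]
        apply Finset.sum_congr rfl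
        intro r _
        push_cast
        ring
      rw [e3, e1, e2, h2]
      ring
    have h4 : XX n 1 x.1 - XX n 1 x.2 = XX n 1 p - XX n 1 q := by
      have e1 := hlin (XX n 1) (hXX 1) x.1 x.2 g1 (by omega) (by omega) g3
      have e2 := hlin (XX n 1) (hXX 1) p q hp (by omega) (by omega) hq
      rw [← e1, ← e2]
      apply Finset.sum_congr rfl
      intro r _
      have := congrFun h3 r
      simp only [Pi.zero_apply] at this
      have h5 : vec n x.1 r - vec n x.2 r = vec n p r - vec n q r := by linarith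
      rw [h5]
    rw [XX_sub, XX_sub] at h4
    have h5 : ((((x.2 : ℤ) - (x.1 : ℤ) : ℤ)) : ℝ) = (((q : ℤ) - (p : ℤ) : ℤ) : ℝ) := by
      have hLr' : (0 : ℝ) < (((n + 1) / 2 : ℕ) : ℝ) := by
        have : 0 < (n + 1) / 2 := by omega
        exact_mod_cast this
      rw [div_left_inj' hLr'.ne'] at h4
      have hpi := Real.pi_pos.ne'
      simp only [Nat.cast_one, mul_one] at h4
      exact mul_left_cancel₀ hpi h4
    have h6 : (x.2 : ℤ) - (x.1 : ℤ) = (q : ℤ) - (p : ℤ) := by exact_mod_cast h5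
    unfold val
    have h7 : (x.1 % 2 = x.2 % 2) ↔ (p % 2 = q % 2) := by omega
    simp only [h7]
  intro p q hp hp' hq hq' hpq
  rcases lt_or_gt_of_ne hpq with h | h
  · exact main p q hp h hq'
  · have h1 := main q p hq h hp'
    rw [← mom_neg, show -(th n p - th n q) = th n q - th n p by ring, h1]
    unfold val
    simp only [eq_comm]

end PathMix
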